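import Mathlib

/-!
# Module D3b of MP_55470d_pr: `(Γ(n+1+z) / (Γ(n+1) n^z))^n → exp (z (z+1) / 2)`
-/

set_option autoImplicit false
open Filter Topology

namespace Pool.Agent.helper84.SG

/-- Stolz' lemma in the case `0/0`, with respect to `1/n` -/
lemma stolz_inv {b : ℕ → ℂ} {c : ℂ} (hb : Tendsto b atTop (𝓝 0))
    (h : Tendsto (fun n : ℕ => (n : ℂ) * (n + 1) * (b n - b (n + 1))) atTop (𝓝 c)) :
    Tendsto (fun n : ℕ => (n : ℂ) * b n) atTop (𝓝 c) := by
  rw [Metric.tendsto_atTop] at h ⊢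
  intro ε hε
  obtain ⟨N, hN⟩ := h (ε / 2) (by positivity)
  refine ⟨max N 1, fun n hn => ?_⟩
  have hnN : N ≤ n := le_trans (le_max_left _ _) hn
  have hn1 : 1 ≤ n := le_trans (le_max_right _ _) hn
  have hn0 : (0 : ℝ) < n := by exact_mod_cast hn1
  -- bound for the differences
  have key : ∀ m, n ≤ m → ‖(b n - b m) - c * ((1 / (n : ℝ) - 1 / (m : ℝ) : ℝ) : ℂ)‖ ≤
      ε / 2 * (1 / (n : ℝ) - 1 / (m : ℝ)) := by
    intro m hm
    induction m, hm using Nat.le_induction with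
    | base => simp
    | succ m hm ih =>
      have hm0 : (0 : ℝ) < m := lt_of_lt_of_le hn0 (by exact_mod_cast hm)
      have hm0' : (m : ℂ) ≠ 0 := by exact_mod_cast hm0.ne'
      have hm1' : (m : ℂ) + 1 ≠ 0 := by exact_mod_cast (by positivity : (m : ℝ) + 1 ≠ 0)
      have hstep := hN m (le_trans hnN hm)
      rw [dist_eq_norm] at hstep
      have hx : (1 / (m : ℝ) - 1 / ((m + 1 : ℕ) : ℝ)) = 1 / ((m : ℝ) * (m + 1)) := by
        push_cast; field_simp; ring
      have e1 : (b m - b (m + 1)) - c * ((1 / (m : ℝ) - 1 / ((m + 1 : ℕ) : ℝ) : ℝ) : ℂ) =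
          ((m : ℂ) * (m + 1) * (b m - b (m + 1)) - c) * ((1 / ((m : ℝ) * (m + 1)) : ℝ) : ℂ) := by
        rw [hx]; push_cast; field_simp
      have e2 : ‖(b m - b (m + 1)) - c * ((1 / (m : ℝ) - 1 / ((m + 1 : ℕ) : ℝ) : ℝ) : ℂ)‖ ≤
          ε / 2 * (1 / (m : ℝ) - 1 / ((m + 1 : ℕ) : ℝ)) := by
        rw [e1, norm_mul, hx, Complex.norm_real, Real.norm_of_nonneg (by positivity)]
        gcongr
      have e3 : (b n - b (m + 1)) - c * ((1 / (n : ℝ) - 1 / ((m + 1 : ℕ) : ℝ) : ℝ) : ℂ) =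
          ((b n - b m) - c * ((1 / (n : ℝ) - 1 / (m : ℝ) : ℝ) : ℂ)) +
          ((b m - b (m + 1)) - c * ((1 / (m : ℝ) - 1 / ((m + 1 : ℕ) : ℝ) : ℝ) : ℂ)) := by
        push_cast; ring
      rw [e3]
      refine (norm_add_le _ _).trans ?_
      calc _ ≤ ε / 2 * (1 / (n : ℝ) - 1 / (m : ℝ)) +
            ε / 2 * (1 / (m : ℝ) - 1 / ((m + 1 : ℕ) : ℝ)) := add_le_add ih e2
        _ = _ := by ring
  have hinv : Tendsto (fun m : ℕ => 1 / (m : ℝ)) atTop (𝓝 0) :=
    tendsto_one_div_atTop_nhds_zero_nat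
  have hlim1 : Tendsto (fun m : ℕ => ‖(b n - b m) - c * ((1 / (n : ℝ) - 1 / (m : ℝ) : ℝ) : ℂ)‖)
      atTop (𝓝 ‖(b n - 0) - c * ((1 / (n : ℝ) - 0 : ℝ) : ℂ)‖) := by
    refine Tendsto.norm (Tendsto.sub (tendsto_const_nhds.sub hb) (Tendsto.const_mul _ ?_))
    exact (Complex.continuous_ofReal.tendsto _).comp (tendsto_const_nhds.sub hinv)
  have hlim2 : Tendsto (fun m : ℕ => ε / 2 * (1 / (n : ℝ) - 1 / (m : ℝ)))
      atTop (𝓝 (ε / 2 * (1 / (n : ℝ) - 0))) := (tendsto_const_nhds.sub hinv).const_mul _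
  have hle := le_of_tendsto_of_tendsto hlim1 hlim2
    (Filter.eventually_atTop.2 ⟨n, fun m hm => key m hm⟩)
  rw [sub_zero, sub_zero] at hle
  rw [dist_eq_norm]
  have hn0' : (n : ℂ) ≠ 0 := by exact_mod_cast hn0.ne'
  have e4 : (n : ℂ) * b n - c = (n : ℂ) * (b n - c * ((1 / (n : ℝ) : ℝ) : ℂ)) := by
    push_cast; field_simp
  rw [e4, norm_mul, Complex.norm_natCast]
  calc (n : ℝ) * ‖b n - c * ((1 / (n : ℝ) : ℝ) : ℂ)‖ ≤ n * (ε / 2 * (1 / (n : ℝ))) := by gcongr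
    _ = ε / 2 := by field_simp
    _ < ε := by linarith

/-- `((1+t)^w - 1 - w t)/t² → w (w-1)/2` -/
lemma binom_lim (w : ℂ) :
    Tendsto (fun t : ℂ => ((1 + t) ^ w - 1 - w * t) / t ^ 2) (𝓝[≠] 0) (𝓝 (w * (w - 1) / 2)) := by
  have h := (Complex.one_add_cpow_hasFPowerSeriesOnBall_zero (a := w)).hasFPowerSeriesAt
  have h2 := h.isBigO_sub_partialSum_pow 3
  simp only [zero_add] at h2
  have hps : ∀ y : ℂ, (binomialSeries ℂ w).partialSum 3 y = 1 + w * y + w * (w - 1) / 2 * y ^ 2 := by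
    intro y
    have h0 : Ring.choose w 0 = 1 := by simp
    have h1 : Ring.choose w 1 = w := by simp
    have h2 : Ring.choose w 2 = w * (w - 1) / 2 := by
      rw [Ring.choose_eq_smul]
      simp [descPochhammer, Polynomial.smeval_mul, Polynomial.smeval_sub, Polynomial.smeval_X]
      ring
    simp only [FormalMultilinearSeries.partialSum, Finset.sum_range_succ, Finset.sum_range_zero,
      binomialSeries_apply, h0, h1, h2, smul_eq_mul, one_mul, zero_add]
    simp only [List.ofFn_zero, List.prod_nil, List.ofFn_succ, List.prod_cons, mul_one]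
    ring
  have h3 : (fun t : ℂ => ((1 + t) ^ w - 1 - w * t) / t ^ 2 - w * (w - 1) / 2)
      =O[𝓝[≠] 0] fun t => t := by
    have h4 := (h2.mono (nhdsWithin_le_nhds (s := {0}ᶜ)))
    rw [Asymptotics.isBigO_iff] at h4 ⊢
    obtain ⟨C, hC⟩ := h4
    refine ⟨C, ?_⟩
    filter_upwards [hC, self_mem_nhdsWithin] with t ht ht0
    have ht0' : t ≠ 0 := ht0
    have e : ((1 + t) ^ w - 1 - w * t) / t ^ 2 - w * (w - 1) / 2 =
        ((1 + t) ^ w - (binomialSeries ℂ w).partialSum 3 t) / t ^ 2 := by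
      rw [hps]; field_simp; ring
    rw [e, norm_div, norm_pow]
    have hpos : 0 < ‖t‖ := norm_pos_iff.2 ht0'
    rw [div_le_iff₀ (by positivity)]
    calc _ ≤ C * ‖‖t‖ ^ 3‖ := ht
      _ = C * ‖t‖ * ‖t‖ ^ 2 := by
        rw [Real.norm_of_nonneg (by positivity)]; ring
  have h5 : Tendsto (fun t : ℂ => t) (𝓝[≠] 0) (𝓝 0) := tendsto_id.mono_left nhdsWithin_le_nhds
  have h6 := h3.trans_tendsto h5
  have h7 := h6.add_const (w * (w - 1) / 2)
  simpa using h7

/-- the normalised quotient of Gamma functions -/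
noncomputable def gq (z : ℂ) (n : ℕ) : ℂ :=
  Complex.Gamma (n + 1 + z) / (Complex.Gamma (n + 1) * (n : ℂ) ^ z)

lemma prod_eq_Gamma (s : ℂ) (hs : 0 < s.re) (n : ℕ) :
    (∏ j ∈ Finset.range n, (s + j)) * Complex.Gamma s = Complex.Gamma (s + n) := by
  induction n with
  | zero => simp
  | succ n ih =>
    rw [Finset.prod_range_succ]
    have hne : s + n ≠ 0 := by
      intro h
      have := congrArg Complex.re h
      simp at this
      have hn : (0 : ℝ) ≤ n := Nat.cast_nonneg n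
      linarith
    have := Complex.Gamma_add_one (s + n) hne
    push_cast
    rw [← add_assoc, this, ← ih]
    ring

lemma gq_tendsto (z : ℂ) (hz : 0 ≤ z.re) : Tendsto (gq z) atTop (𝓝 1) := by
  have hre : 0 < (z + 1).re := by simp; linarith
  have hG : Complex.Gamma (z + 1) ≠ 0 := Complex.Gamma_ne_zero_of_re_pos hre
  have h1 := Complex.GammaSeq_tendsto_Gamma (z + 1)
  have h2 : Tendsto (fun n : ℕ => ((n : ℂ) + 1 + z) / n) atTop (𝓝 1) := by
    have : Tendsto (fun n : ℕ => (1 : ℂ) + (1 + z) * ((1 / (n : ℝ) : ℝ) : ℂ)) atTop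
        (𝓝 (1 + (1 + z) * ((0 : ℝ) : ℂ))) := by
      refine tendsto_const_nhds.add (Tendsto.const_mul _ ?_)
      exact (Complex.continuous_ofReal.tendsto _).comp tendsto_one_div_atTop_nhds_zero_nat
    simp only [Complex.ofReal_zero, mul_zero, add_zero] at this
    refine this.congr' ?_
    filter_upwards [eventually_gt_atTop 0] with n hn
    have hn0 : (n : ℂ) ≠ 0 := by exact_mod_cast hn.ne'
    push_cast
    field_simp
    ring
  have h3 : Tendsto (fun n : ℕ => Complex.GammaSeq (z + 1) n / Complex.Gamma (z + 1) *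
      (((n : ℂ) + 1 + z) / n)) atTop (𝓝 1) := by
    have := (h1.div_const (Complex.Gamma (z + 1))).mul h2
    rwa [div_self hG, one_mul] at this
  have h4 := h3.inv₀ one_ne_zero
  rw [inv_one] at h4
  refine h4.congr' ?_
  filter_upwards [eventually_gt_atTop 0] with n hn
  have hn0 : (n : ℂ) ≠ 0 := by exact_mod_cast hn.ne'
  have hp : (n : ℂ) ^ z ≠ 0 := by
    rw [Ne, Complex.cpow_eq_zero_iff]; tauto
  have hprod := prod_eq_Gamma (z + 1) hre (n + 1)
  have hne : (n : ℂ) + 1 + z ≠ 0 := by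
    intro h
    have := congrArg Complex.re h
    simp at this
    have hn : (0 : ℝ) ≤ n := Nat.cast_nonneg n
    linarith
  have hg2 : Complex.Gamma (z + 1 + (n + 1 : ℕ)) =
      ((n : ℂ) + 1 + z) * Complex.Gamma (n + 1 + z) := by
    rw [← Complex.Gamma_add_one _ hne]; congr 1; push_cast; ring
  have hgn : Complex.Gamma (n + 1 + z) ≠ 0 := by
    apply Complex.Gamma_ne_zero_of_re_pos
    simp
    have hn : (0 : ℝ) ≤ n := Nat.cast_nonneg n
    linarith
  have hfac : Complex.Gamma (n + 1) = (n.factorial : ℂ) := Complex.Gamma_nat_eq_factorial n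
  have hfac0 : (n.factorial : ℂ) ≠ 0 := by exact_mod_cast n.factorial_ne_zero
  rw [hg2] at hprod
  have hP : (∏ j ∈ Finset.range (n + 1), (z + 1 + (j : ℂ))) =
      ((n : ℂ) + 1 + z) * Complex.Gamma (n + 1 + z) / Complex.Gamma (z + 1) := by
    rw [eq_div_iff hG]; exact hprod
  rw [Complex.GammaSeq, hP, gq, hfac, Complex.cpow_add _ _ hn0, Complex.cpow_one]
  field_simp

lemma gq_step (z : ℂ) (hz : 0 ≤ z.re) (n : ℕ) (hn : 0 < n) :
    gq z (n + 1) = gq z n * ((1 + (z + 1) * (1 / (n : ℂ))) * (1 + 1 / (n : ℂ)) ^ (-(z + 1))) := by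
  have hn0 : (n : ℂ) ≠ 0 := by exact_mod_cast hn.ne'
  have hn1 : (n : ℂ) + 1 ≠ 0 := by exact_mod_cast n.succ_ne_zero
  have hp : (n : ℂ) ^ z ≠ 0 := by
    rw [Ne, Complex.cpow_eq_zero_iff]; tauto
  have hne : (n : ℂ) + 1 + z ≠ 0 := by
    intro h
    have := congrArg Complex.re h
    simp at this
    have hn : (0 : ℝ) ≤ n := Nat.cast_nonneg n
    linarith
  have hg2 : Complex.Gamma (((n + 1 : ℕ) : ℂ) + 1 + z) =
      ((n : ℂ) + 1 + z) * Complex.Gamma (n + 1 + z) := by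
    rw [← Complex.Gamma_add_one _ hne]; congr 1; push_cast; ring
  have hg3 : Complex.Gamma (((n + 1 : ℕ) : ℂ) + 1) = ((n : ℂ) + 1) * Complex.Gamma (n + 1) := by
    rw [← Complex.Gamma_add_one _ hn1]; congr 1; push_cast; ring
  have hcp : ((n + 1 : ℕ) : ℂ) ^ z = (n : ℂ) ^ z * (1 + 1 / (n : ℂ)) ^ z := by
    have : ((n + 1 : ℕ) : ℂ) = ((n : ℝ) : ℂ) * ((1 + 1 / (n : ℝ) : ℝ) : ℂ) := by
      push_cast; field_simp
    rw [this, Complex.mul_cpow_ofReal_nonneg (by positivity) (by positivity)]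
    push_cast
    rfl
  have hpos : (1 + 1 / (n : ℂ)) ≠ 0 := by
    have : (1 + 1 / (n : ℂ)) = (n + 1) / n := by field_simp
    rw [this]; exact div_ne_zero hn1 hn0
  have hq : (1 + 1 / (n : ℂ)) ^ z ≠ 0 := by
    rw [Ne, Complex.cpow_eq_zero_iff]; tauto
  have hneg : (1 + 1 / (n : ℂ)) ^ (-(z + 1)) =
      ((1 + 1 / (n : ℂ)) ^ z * (1 + 1 / (n : ℂ)))⁻¹ := by
    rw [Complex.cpow_neg, Complex.cpow_add _ _ hpos, Complex.cpow_one]
  have hGn : Complex.Gamma ((n : ℂ) + 1) ≠ 0 := by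
    rw [Complex.Gamma_nat_eq_factorial]; exact_mod_cast n.factorial_ne_zero
  rw [gq, gq, hg2, hg3, hcp, hneg]
  have h1 : (1 + 1 / (n : ℂ)) = (n + 1) / n := by field_simp
  rw [mul_inv]
  generalize hX : (1 + 1 / (n : ℂ)) ^ z = X at *
  rw [h1]
  field_simp
  ring

theorem gamma_pow_limit (z : ℂ) (hz : 0 ≤ z.re) :
    Tendsto (fun n : ℕ => (Complex.Gamma (n + 1 + z) / (Complex.Gamma (n + 1) * (n : ℂ) ^ z)) ^ n)
      atTop (𝓝 (Complex.exp (z * (z + 1) / 2))) := by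
  have hq := gq_tendsto z hz
  have hb : Tendsto (fun n => gq z n - 1) atTop (𝓝 0) := by
    have := hq.sub_const 1
    simpa using this
  have hinv : Tendsto (fun n : ℕ => (1 / (n : ℂ))) atTop (𝓝[≠] 0) := by
    rw [tendsto_nhdsWithin_iff]
    constructor
    · have := (Complex.continuous_ofReal.tendsto 0).comp tendsto_one_div_atTop_nhds_zero_nat
      refine (this.congr fun n => ?_)
      simp
    · filter_upwards [eventually_gt_atTop 0] with n hn
      have hn0 : (n : ℂ) ≠ 0 := by exact_mod_cast hn.ne'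
      simp [hn0]
  have hinv' : Tendsto (fun n : ℕ => (1 / (n : ℂ))) atTop (𝓝 0) :=
    hinv.mono_right nhdsWithin_le_nhds
  have hbin := (binom_lim (z + 1)).comp hinv
  have hcont : Tendsto (fun n : ℕ => (1 + 1 / (n : ℂ)) ^ (-(z + 1))) atTop (𝓝 1) := by
    have h1 : Tendsto (fun n : ℕ => (1 + 1 / (n : ℂ))) atTop (𝓝 (1 + 0)) :=
      tendsto_const_nhds.add hinv'
    have h2 : ContinuousAt (fun x : ℂ => x ^ (-(z + 1))) (1 + 0) := by
      apply ContinuousAt.cpow continuousAt_id continuousAt_const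
      simp
    have := h2.tendsto.comp h1
    simpa [Function.comp_def] using this
  have hstep : Tendsto (fun n : ℕ => (n : ℂ) * (n + 1) * ((gq z n - 1) - (gq z (n + 1) - 1)))
      atTop (𝓝 (z * (z + 1) / 2)) := by
    have h1 : Tendsto (fun n : ℕ => (1 + 1 / (n : ℂ))) atTop (𝓝 (1 + 0)) :=
      tendsto_const_nhds.add hinv'
    have := ((hq.mul h1).mul hcont).mul hbin
    have e : (1 : ℂ) * (1 + 0) * 1 * ((z + 1) * (z + 1 - 1) / 2) = z * (z + 1) / 2 := by ring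
    rw [e] at this
    refine this.congr' ?_
    filter_upwards [eventually_gt_atTop 0] with n hn
    have hn0 : (n : ℂ) ≠ 0 := by exact_mod_cast hn.ne'
    have hn1 : (n : ℂ) + 1 ≠ 0 := by exact_mod_cast n.succ_ne_zero
    have hpos : (1 + 1 / (n : ℂ)) ≠ 0 := by
      have : (1 + 1 / (n : ℂ)) = (n + 1) / n := by field_simp
      rw [this]; exact div_ne_zero hn1 hn0
    rw [gq_step z hz n hn]
    have hmul : (1 + 1 / (n : ℂ)) ^ (-(z + 1)) * (1 + 1 / (n : ℂ)) ^ (z + 1) = 1 := by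
      rw [← Complex.cpow_add _ _ hpos]; simp
    simp only [Function.comp]
    have h6 : gq z n * (1 + 1 / (n : ℂ)) * (1 + 1 / (n : ℂ)) ^ (-(z + 1)) *
        (((1 + 1 / (n : ℂ)) ^ (z + 1) - 1 - (z + 1) * (1 / (n : ℂ))) / (1 / (n : ℂ)) ^ 2) =
        gq z n * (n : ℂ) * (n + 1) * ((1 + 1 / (n : ℂ)) ^ (-(z + 1)) * (1 + 1 / (n : ℂ)) ^ (z + 1)
          - (1 + 1 / (n : ℂ)) ^ (-(z + 1)) * (1 + (z + 1) * (1 / (n : ℂ)))) := by
      generalize (1 + 1 / (n : ℂ)) ^ (-(z + 1)) = X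
      generalize (1 + 1 / (n : ℂ)) ^ (z + 1) = Y
      field_simp
      ring
    rw [h6, hmul]
    ring
  have hfin := stolz_inv hb hstep
  have := Complex.tendsto_one_add_pow_exp_of_tendsto hfin
  refine this.congr fun n => ?_
  rw [gq]; congr 1; ring

end Pool.Agent.helper84.SG
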