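import Pool.Agent.helper10.SG.Expand

/-!
# The strong Szegő limit theorem for the Toeplitz determinant
-/

set_option autoImplicit false
open Filter Topology

namespace Pool.Agent.helper10.SG
open Pool.Agent.helper84.SG

/-- uniqueness of power series coefficients from values on `(0,1)` -/
lemma coeff_unique {a b : ℕ → ℝ} {f : ℝ → ℝ}
    (ha : ∀ q, 0 < q → q < 1 → HasSum (fun p => a p * q ^ p) (f q))
    (hb : ∀ q, 0 < q → q < 1 → HasSum (fun p => b p * q ^ p) (f q)) : a = b := by
  have key : ∀ c : ℕ → ℝ, (∀ q, 0 < q → q < 1 → Summable fun p => c p * q ^ p) →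
      HasFPowerSeriesOnBall (fun x => ∑' p, c p * x ^ p)
        (FormalMultilinearSeries.ofScalars ℝ c) 0 (ENNReal.ofReal (1 / 2)) := by
    intro c hc
    refine ⟨?_, ENNReal.ofReal_pos.mpr (by norm_num), ?_⟩
    · have h1 := (hc (1 / 2) (by norm_num) (by norm_num)).tendsto_atTop_zero
      have h2 : (FormalMultilinearSeries.ofScalars ℝ c).radius ≥ ((1 / 2 : NNReal) : ENNReal) := by
        refine FormalMultilinearSeries.le_radius_of_tendsto _ (l := 0) ?_
        have h3 := h1.norm
        rw [norm_zero] at h3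
        refine h3.congr fun n => ?_
        rw [norm_mul, norm_pow]
        simp
      refine le_trans (le_of_eq ?_) h2
      rw [ENNReal.ofReal]
      congr 1
      ext
      simp
    · intro y hy
      rw [Metric.mem_eball, edist_zero_right, ← ofReal_norm] at hy
      have hy2 : |y| < 1 / 2 := by
        rwa [ENNReal.ofReal_lt_ofReal_iff (by norm_num), Real.norm_eq_abs] at hy
      rw [zero_add]
      have h1 : Summable fun p => c p * y ^ p := by
        have h2 := (hc (1 / 2) (by norm_num) (by norm_num)).abs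
        refine Summable.of_norm_bounded h2 fun p => ?_
        rw [Real.norm_eq_abs, abs_mul, abs_mul, abs_pow, abs_pow]
        refine mul_le_mul_of_nonneg_left ?_ (abs_nonneg _)
        refine pow_le_pow_left₀ (abs_nonneg _) ?_ _
        rw [abs_of_pos (by norm_num : (0 : ℝ) < 1 / 2)]
        exact hy2.le
      convert! h1.hasSum using 1
      ext p
      simp [FormalMultilinearSeries.ofScalars, List.ofFn_const]
  have hA := key a fun q h0 h1 => (ha q h0 h1).summable
  have hB := key b fun q h0 h1 => (hb q h0 h1).summable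
  have hfreq : ∃ᶠ z in 𝓝[≠] (0 : ℝ), (fun x => ∑' p, a p * x ^ p) z =
      (fun x => ∑' p, b p * x ^ p) z := by
    have h1 : ∀ᶠ z in 𝓝[>] (0 : ℝ), (fun x => ∑' p, a p * x ^ p) z =
        (fun x => ∑' p, b p * x ^ p) z := by
      have h2 : Set.Ioo (0 : ℝ) 1 ∈ 𝓝[>] (0 : ℝ) := Ioo_mem_nhdsGT (by norm_num)
      filter_upwards [h2] with q hq
      rw [(ha q hq.1 hq.2).tsum_eq, (hb q hq.1 hq.2).tsum_eq]
    exact h1.frequently.filter_mono (nhdsWithin_mono _ fun x hx => ne_of_gt hx)
  have heq := (AnalyticAt.frequently_eq_iff_eventually_eq hA.analyticAt hB.analyticAt).mp hfreq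
  have h3 := HasFPowerSeriesAt.eq_formalMultilinearSeries
    (hA.hasFPowerSeriesAt.congr heq) hB.hasFPowerSeriesAt
  exact FormalMultilinearSeries.ofScalars_series_injective ℝ ℝ h3

lemma Dtoep_zero (n : ℕ) (h : ℝ) : Dtoep n h 0 = 1 := by
  rw [Dtoep_eq]
  rw [show (Matrix.of fun i j : Fin n => ∑' k, T h 0 i k * T h 0 j k) = 1 from ?_]
  · simp
  ext i j
  rw [Matrix.of_apply]
  have hT : ∀ (i k : ℕ), T h 0 i k = if i = k then 1 else 0 := by
    intro i k
    rw [T]
    rcases lt_trichotomy i k with hik | hik | hik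
    · rw [if_pos hik.le, if_neg hik.ne, zero_pow (by omega), zero_mul]
    · subst hik
      simp [cc_zero]
    · rw [if_neg (by omega), if_neg (by omega)]
  rw [tsum_eq_single (i : ℕ)]
  · rw [hT, hT, if_pos rfl, one_mul, Matrix.one_apply]
    by_cases hij : i = j
    · rw [if_pos (by rw [hij]), if_pos hij]
    · rw [if_neg (fun hc => hij (Fin.ext hc.symm)), if_neg hij]
  · intro k hk
    rw [hT, if_neg (Ne.symm hk), zero_mul]

/-- B2, from B1' -/
theorem toeplitz_limit_of
    (H : ∀ (n : ℕ) (r : ℝ), 0 ≤ r → r < 1 →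
      Dtoep n (-(n : ℝ)) r = (1 - r ^ 2) ^ (-((n : ℝ) ^ 2))) (h : ℝ) :
    (∀ n r, 0 ≤ r → r < 1 → 0 ≤ Dtoep n h r ∧ Dtoep n h r ≤ (1 - r ^ 2) ^ (-(h ^ 2))) ∧
    ∀ r, 0 ≤ r → r < 1 → Tendsto (fun n => Dtoep n h r) atTop (𝓝 ((1 - r ^ 2) ^ (-(h ^ 2)))) := by
  have hneg : ∀ n p : ℕ, aa n p (-(n : ℝ)) = cc (-((n : ℝ) ^ 2)) p := by
    intro n p
    have h1 : (fun p => aa n p (-(n : ℝ))) = fun p => cc (-((n : ℝ) ^ 2)) p := by
      refine coeff_unique (f := fun q => (1 - q) ^ (-((n : ℝ) ^ 2))) ?_ ?_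
      · intro q h0 h1
        have h2 := hasSum_aa n (-(n : ℝ)) (Real.sqrt q) (Real.sqrt_pos.mpr h0)
          (by rw [Real.sqrt_lt' one_pos]; simpa using h1)
        rw [Real.sq_sqrt h0.le, H n _ (Real.sqrt_nonneg _)
          (by rw [Real.sqrt_lt' one_pos]; simpa using h1), Real.sq_sqrt h0.le] at h2
        exact h2
      · intro q h0 h1
        exact hasSum_cc_real _ q (by rw [abs_of_pos h0]; exact h1)
    exact congrFun h1 p
  have haa : ∀ p, aa p p h = cc (-(h ^ 2)) p := fun p =>
    aa_eq_of (fun n p _ => hneg n p) p h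
  have hle : ∀ n p, aa n p h ≤ cc (-(h ^ 2)) p := by
    intro n p
    refine (aa_mono n (max n p) p (le_max_left _ _) h).trans ?_
    rw [aa_stable _ p (le_max_right _ _), haa]
  have hr2 : ∀ r : ℝ, 0 ≤ r → r < 1 → |r ^ 2| < 1 := by
    intro r h0 h1
    rw [abs_of_nonneg (sq_nonneg r)]
    nlinarith
  have hsum : ∀ n r, 0 ≤ r → r < 1 → HasSum (fun p : ℕ => aa n p h * (r ^ 2) ^ p)
      (Dtoep n h r) := by
    intro n r h0 h1
    rcases h0.eq_or_lt with hr | hr
    · rw [← hr, Dtoep_zero]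
      have h5 : aa n 0 h * ((0 : ℝ) ^ 2) ^ 0 = 1 := by
        rw [aa_stable n 0 (Nat.zero_le _), haa, cc_zero]
        simp
      rw [← h5]
      refine hasSum_single 0 fun p hp => ?_
      rw [zero_pow two_ne_zero, zero_pow hp, mul_zero]
    · exact hasSum_aa n h r hr h1
  refine ⟨fun n r h0 h1 => ⟨?_, ?_⟩, fun r h0 h1 => ?_⟩
  · exact (hsum n r h0 h1).nonneg fun p => mul_nonneg (aa_nonneg _ _ _) (by positivity)
  · refine hasSum_le (fun p => ?_) (hsum n r h0 h1) (hasSum_cc_real _ _ (hr2 r h0 h1))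
    exact mul_le_mul_of_nonneg_right (hle n p) (by positivity)
  · have h3 := (hasSum_cc_real (-(h ^ 2)) _ (hr2 r h0 h1))
    have h4 : (fun n => Dtoep n h r) = fun n => ∑' p, aa n p h * (r ^ 2) ^ p := by
      funext n
      exact (hsum n r h0 h1).tsum_eq.symm
    rw [h4, ← h3.tsum_eq]
    refine tendsto_tsum_of_dominated_convergence h3.summable ?_ ?_
    · intro p
      refine tendsto_const_nhds.congr' ?_
      filter_upwards [eventually_ge_atTop p] with n hn
      rw [aa_stable n p hn, haa]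
    · refine Eventually.of_forall fun n p => ?_
      rw [Real.norm_eq_abs, abs_of_nonneg (mul_nonneg (aa_nonneg _ _ _) (by positivity))]
      exact mul_le_mul_of_nonneg_right (hle n p) (by positivity)

end Pool.Agent.helper10.SG
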