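import Pool.Agent.helper10.SG.B1
import Pool.Agent.helper10.SG.B2

/-!
# The strong Szegő limit theorem (final form)
-/

set_option autoImplicit false
open Filter Topology

namespace Pool.Agent.helper10.SG
open Pool.Agent.helper84.SG

/-- B2 (bound and limit) -/
theorem toeplitz_limit (h : ℝ) :
    (∀ n r, 0 ≤ r → r < 1 → 0 ≤ Dtoep n h r ∧ Dtoep n h r ≤ (1 - r ^ 2) ^ (-(h ^ 2))) ∧
    ∀ r, 0 ≤ r → r < 1 → Tendsto (fun n => Dtoep n h r) atTop (𝓝 ((1 - r ^ 2) ^ (-(h ^ 2)))) :=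
  toeplitz_limit_of (fun n r hr hr1 => toeplitz_neg n r hr hr1) h

end Pool.Agent.helper10.SG
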