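import Pool.Agent.helper10.SG.Limit
import Pool.Agent.helper28.SG.Law
import Pool.Agent.helper26.SG.KacRice
import Pool.Agent.helper50.SG.TwoPoint

/-!
# Module D3a of MP_55470d_pr: the two point function of the pencil
-/

set_option autoImplicit false
open MeasureTheory ProbabilityTheory Filter Topology
open scoped NNReal ENNReal

namespace Pool.Agent.helper10.SG

open Pool.Agent.helper84.SG

/-- the law of the pencil polynomial -/
theorem pencil_law (n : ℕ) (Ψ : (Fin (n + 1) → ℂ) → ℝ≥0∞)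
    (hΨ : Measurable Ψ) (hinv : ∀ (ω : ℂ) (f), ‖ω‖ = 1 → Ψ (ω • f) = Ψ f) :
    (∫⁻ v, ENNReal.ofReal (vand v) ∂(ens n)) * ∫⁻ M, Ψ (pcoef n (ppoly M)) ∂(pen n) =
      ∫⁻ v, Ψ (pcoef n (vpoly v)) * ENNReal.ofReal (vand v) ∂(ens n) :=
  Pool.Agent.helper28.SG.pencil_law_of
    (fun _ g hg => Pool.Agent.helper26.SG.kac_rice g hg) n Ψ hΨ hinv

lemma Dtoep_h_zero (n : ℕ) (r : ℝ) : Dtoep n 0 r = 1 := by
  rw [← Dm_det, show Dm n 0 r = 1 from ?_]
  · simp
  ext i j
  have hc : ∀ k, k ≠ 0 → cc 0 k = 0 := by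
    intro k hk
    rw [cc]
    refine Finset.prod_eq_zero (Finset.mem_range.mpr (Nat.pos_of_ne_zero hk)) ?_
    simp
  rw [Dm, Matrix.of_apply, tsum_eq_single (i : ℕ)]
  · by_cases hij : i = j
    · subst hij
      simp [cc_zero]
    · rw [Matrix.one_apply, if_neg hij]
      split_ifs with hle
      · rw [hc ((i : ℕ) - j) (by
          intro h0
          apply hij
          ext
          omega), mul_zero]
      · rfl
  · intro k hk
    split_ifs with hle
    · rw [hc (k - i) (by omega), mul_zero, zero_mul]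
    · rfl

/-- the normalisation constant -/
theorem vand_integral (n : ℕ) :
    ∫⁻ v, ENNReal.ofReal (vand v) ∂(ens n) =
      ENNReal.ofReal ((n.factorial : ℝ) *
        ∏ i : Fin n, (Real.Gamma ((n : ℝ) - i) * Real.Gamma ((i : ℝ) + 1))) := by
  have h1 := Pool.Agent.helper50.SG.two_point_integral n 0 le_rfl (1, 0) (0, 1)
    (by simp [Unit2]) (by simp [Unit2]) (by simp [ip2])
  have h2 : ip2 (1, 0) (0, 1) = 0 := by simp [ip2]
  have h3 := toeplitz_transform n 0 0 le_rfl one_pos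
  rw [Dtoep_h_zero] at h3
  simp only [ne_eq, OfNat.ofNat_ne_zero, not_false_eq_true, zero_pow, sub_zero,
    Real.one_rpow, one_mul] at h3
  simp only [h2, Real.sqrt_zero, h3, mul_zero, Real.rpow_zero, mul_one, Finset.prod_const_one,
    one_mul, add_zero, sub_zero, Real.one_rpow] at h1
  exact h1

/-- `nrm` as a product over `Fin n` -/
lemma nrm_eq (n : ℕ) (h : ℝ) : nrm n n h =
    (∏ i : Fin n, Real.Gamma ((n : ℝ) - i + h)) / ∏ i : Fin n, Real.Gamma ((n : ℝ) - i) := by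
  rw [nrm, Finset.prod_div_distrib, Finset.prod_range, Finset.prod_range]

/-- reflection of the product -/
lemma prod_rev (n : ℕ) (h : ℝ) : ∏ i : Fin n, Real.Gamma ((i : ℝ) + h + 1) =
    ∏ i : Fin n, Real.Gamma ((n : ℝ) - i + h) := by
  rw [← Equiv.prod_comp (Fin.revPerm (n := n))]
  refine Finset.prod_congr rfl fun i _ => ?_
  congr 1
  rw [Fin.revPerm_apply, Fin.val_rev, Nat.cast_sub (by omega)]
  push_cast
  ring

/-- D3a, the `lintegral` form -/
theorem two_point_lintegral (n : ℕ) (h : ℝ) (hh : 0 ≤ h) (e e' : ℂ × ℂ) (he : Unit2 e)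
    (he' : Unit2 e') (hne : ip2 e e' < 1) :
    ∫⁻ M, ENNReal.ofReal (‖pf M e‖ ^ (2 * h) * ‖pf M e'‖ ^ (2 * h)) ∂(pen n) =
      ENNReal.ofReal (nrm n n h ^ 2 * Dtoep n h (Real.sqrt (ip2 e e'))) := by
  have hip0 : 0 ≤ ip2 e e' := by unfold ip2; positivity
  have hr0 : 0 ≤ Real.sqrt (ip2 e e') := Real.sqrt_nonneg _
  have hr1 : Real.sqrt (ip2 e e') < 1 := by
    rw [Real.sqrt_lt' one_pos]; simpa using hne
  have h1 := pencil_law n
    (fun f => ENNReal.ofReal (‖hev f e‖ ^ (2 * h) * ‖hev f e'‖ ^ (2 * h)))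
    (by
      have m1 : ∀ a : ℂ × ℂ, Measurable fun f : Fin (n + 1) → ℂ => hev f a := fun a =>
        Pool.Agent.helper28.SG.measurable_hev a
      exact ENNReal.measurable_ofReal.comp
        (((m1 e).norm.pow_const _).mul ((m1 e').norm.pow_const _)))
    (by
      intro ω f hω
      simp only [Pool.Agent.helper28.SG.hev_smul, norm_mul, hω, one_mul])
  simp only [Pool.Agent.helper28.SG.hev_ppoly, Pool.Agent.helper28.SG.hev_vpoly] at h1
  have h2 : ∀ v : Fin n → ℂ × ℂ, ENNReal.ofReal (‖∏ k, (e.1 * (v k).2 - (v k).1 * e.2)‖ ^ (2 * h) *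
      ‖∏ k, (e'.1 * (v k).2 - (v k).1 * e'.2)‖ ^ (2 * h)) * ENNReal.ofReal (vand v) =
      ENNReal.ofReal ((∏ k, (‖(v k).2 * e.1 - (v k).1 * e.2‖ ^ (2 * h) *
        ‖(v k).2 * e'.1 - (v k).1 * e'.2‖ ^ (2 * h))) * vand v) := by
    intro v
    rw [← ENNReal.ofReal_mul (by positivity), norm_prod, norm_prod,
      ← Real.finsetProd_rpow _ _ (fun i _ => norm_nonneg _),
      ← Real.finsetProd_rpow _ _ (fun i _ => norm_nonneg _), ← Finset.prod_mul_distrib]
    congr 2
    refine Finset.prod_congr rfl fun k _ => ?_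
    rw [mul_comm e.1, mul_comm e'.1]
  simp only [h2] at h1
  rw [Pool.Agent.helper50.SG.two_point_integral n h hh e e' he he' hne, vand_integral] at h1
  have h3 := toeplitz_transform n h _ hr0 hr1
  rw [Real.sq_sqrt hip0] at h3
  have hG : ∀ i : Fin n, 0 < Real.Gamma ((n : ℝ) - i) := fun i => by
    apply Real.Gamma_pos_of_pos
    have : (i : ℝ) < n := by exact_mod_cast i.2
    linarith
  have hG' : ∀ i : Fin n, 0 < Real.Gamma ((i : ℝ) + 1) := fun i => by
    apply Real.Gamma_pos_of_pos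
    positivity
  have hGh : ∀ i : Fin n, 0 < Real.Gamma ((n : ℝ) - i + h) := fun i => by
    apply Real.Gamma_pos_of_pos
    have : (i : ℝ) < n := by exact_mod_cast i.2
    linarith
  set C : ℝ := (n.factorial : ℝ) *
        ∏ i : Fin n, (Real.Gamma ((n : ℝ) - i) * Real.Gamma ((i : ℝ) + 1)) with hC
  have hCpos : 0 < C := by
    apply mul_pos (by exact_mod_cast n.factorial_pos)
    exact Finset.prod_pos fun i _ => mul_pos (hG i) (hG' i)
  have h4 : (n.factorial : ℝ) *
        (∏ i : Fin n, (Real.Gamma ((n : ℝ) - i + h) * Real.Gamma ((i : ℝ) + h + 1))) *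
        (1 - ip2 e e') ^ ((n : ℝ) * (n + 1) / 2 + 2 * n * h) *
        (Nmat n h (Real.sqrt (ip2 e e'))).det =
      C * (nrm n n h ^ 2 * Dtoep n h (Real.sqrt (ip2 e e'))) := by
    rw [← h3, nrm_eq, hC, Finset.prod_mul_distrib, Finset.prod_mul_distrib, prod_rev n h]
    have h5 := prod_rev n 0
    simp only [add_zero] at h5
    rw [h5]
    have h6 : ∏ i : Fin n, Real.Gamma ((n : ℝ) - i) ≠ 0 :=
      (Finset.prod_pos fun i _ => hG i).ne'
    field_simp
  rw [h4, ENNReal.ofReal_mul hCpos.le] at h1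
  exact (ENNReal.mul_right_inj (ENNReal.ofReal_pos.2 hCpos).ne' ENNReal.ofReal_ne_top).1 h1

lemma measurable_pf {n : ℕ} (e : ℂ × ℂ) :
    Measurable fun M : (Fin n → Fin n → ℂ) × (Fin n → Fin n → ℂ) => pf M e := by
  unfold pf
  simp only [Matrix.det_apply]
  refine Finset.measurable_sum _ fun σ _ => ?_
  refine Measurable.const_smul ?_ _
  refine Finset.measurable_prod _ fun i _ => ?_
  simp only [Matrix.sub_apply, Matrix.smul_apply, Matrix.of_apply]
  fun_prop

/-- D3a -/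
theorem two_point (n : ℕ) (h : ℝ) (hh : 0 ≤ h) (e e' : ℂ × ℂ) (he : Unit2 e) (he' : Unit2 e')
    (hne : ip2 e e' < 1) :
    Integrable (fun M => ‖pf M e‖ ^ (2 * h) * ‖pf M e'‖ ^ (2 * h)) (pen n) ∧
    ∫ M, ‖pf M e‖ ^ (2 * h) * ‖pf M e'‖ ^ (2 * h) ∂(pen n) =
      nrm n n h ^ 2 * Dtoep n h (Real.sqrt (ip2 e e')) := by
  have hip0 : 0 ≤ ip2 e e' := by unfold ip2; positivity
  have hr0 : 0 ≤ Real.sqrt (ip2 e e') := Real.sqrt_nonneg _
  have hr1 : Real.sqrt (ip2 e e') < 1 := by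
    rw [Real.sqrt_lt' one_pos]; simpa using hne
  have hm : AEStronglyMeasurable
      (fun M : (Fin n → Fin n → ℂ) × (Fin n → Fin n → ℂ) =>
        ‖pf M e‖ ^ (2 * h) * ‖pf M e'‖ ^ (2 * h)) (pen n) :=
    (((measurable_pf e).norm.pow_const _).mul
      ((measurable_pf e').norm.pow_const _)).aestronglyMeasurable
  have hpos : ∀ M : (Fin n → Fin n → ℂ) × (Fin n → Fin n → ℂ),
      0 ≤ ‖pf M e‖ ^ (2 * h) * ‖pf M e'‖ ^ (2 * h) := fun M => by positivity
  have h1 := two_point_lintegral n h hh e e' he he' hne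
  have hD : 0 ≤ Dtoep n h (Real.sqrt (ip2 e e')) :=
    ((toeplitz_limit h).1 n _ hr0 hr1).1
  constructor
  · refine ⟨hm, ?_⟩
    rw [hasFiniteIntegral_iff_ofReal (Eventually.of_forall hpos), h1]
    exact ENNReal.ofReal_lt_top
  · rw [integral_eq_lintegral_of_nonneg_ae (Eventually.of_forall hpos) hm, h1,
      ENNReal.toReal_ofReal (by positivity)]

end Pool.Agent.helper10.SG
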