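import Pool.Agent.helper10.SG.Comb

/-!
# The change of basis `{(r - X)^j (1 - rX)^(n-1-j)} → {X^m}`
-/

set_option autoImplicit false
open Polynomial

namespace Pool.Agent.helper10.SG
open Pool.Agent.helper84.SG

/-- `(r - X)^j (1 - rX)^(n-1-j)` -/
noncomputable def fP (n : ℕ) (r : ℝ) (j : ℕ) : ℝ[X] := (C r - X) ^ j * (1 - C r * X) ^ (n - 1 - j)

/-- its coefficients -/
noncomputable def mA (n : ℕ) (r : ℝ) : Matrix (Fin n) (Fin n) ℝ :=
  Matrix.of fun j m => (fP n r j).coeff m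

/-- lower triangular factor -/
noncomputable def mL (n : ℕ) (r : ℝ) : Matrix (Fin n) (Fin n) ℝ :=
  Matrix.of fun j l => if (l : ℕ) ≤ j then
    (Nat.choose j l : ℝ) * r ^ ((j : ℕ) - l) * (-(1 - r ^ 2)) ^ (l : ℕ) else 0

/-- upper triangular factor -/
noncomputable def mB (n : ℕ) (r : ℝ) : Matrix (Fin n) (Fin n) ℝ :=
  Matrix.of fun l m => ((X ^ (l : ℕ) * (1 - C r * X) ^ (n - 1 - l) : ℝ[X])).coeff m

lemma fP_eq (n : ℕ) (r : ℝ) (j : ℕ) (hj : j < n) :
    fP n r j = ∑ l ∈ Finset.range (j + 1),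
      C ((Nat.choose j l : ℝ) * r ^ (j - l) * (-(1 - r ^ 2)) ^ l) *
        (X ^ l * (1 - C r * X) ^ (n - 1 - l)) := by
  have h1 : (C r - X : ℝ[X]) = C (-(1 - r ^ 2)) * X + C r * (1 - C r * X) := by
    simp only [map_neg, map_sub, map_one, map_pow]
    ring
  rw [fP, h1, add_pow, Finset.sum_mul]
  refine Finset.sum_congr rfl fun l hl => ?_
  have hl' : l ≤ j := Nat.lt_succ_iff.mp (Finset.mem_range.mp hl)
  have h2 : n - 1 - l = (j - l) + (n - 1 - j) := by omega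
  rw [h2, pow_add, mul_pow, mul_pow, map_mul, map_mul, map_pow, map_pow, map_natCast]
  ring

lemma mA_eq (n : ℕ) (r : ℝ) : mA n r = mL n r * mB n r := by
  ext j m
  rw [Matrix.mul_apply, mA, Matrix.of_apply, fP_eq n r j j.2, finsetSum_coeff]
  simp only [coeff_C_mul]
  have h1 : ∀ l ∈ Finset.range n, ¬ (l < (j : ℕ) + 1) →
      (if l ≤ (j : ℕ) then (Nat.choose j l : ℝ) * r ^ ((j : ℕ) - l) * (-(1 - r ^ 2)) ^ l else 0) *
        (X ^ l * (1 - C r * X) ^ (n - 1 - l) : ℝ[X]).coeff m = 0 := by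
    intro l _ hl
    rw [if_neg (by omega), zero_mul]
  have h2 : ∑ l : Fin n, mL n r j l * mB n r l m = ∑ l ∈ Finset.range n,
      (if l ≤ (j : ℕ) then (Nat.choose j l : ℝ) * r ^ ((j : ℕ) - l) * (-(1 - r ^ 2)) ^ l else 0) *
        (X ^ l * (1 - C r * X) ^ (n - 1 - l) : ℝ[X]).coeff m := by
    rw [← Fin.sum_univ_eq_sum_range (fun l : ℕ =>
      (if l ≤ (j : ℕ) then (Nat.choose j l : ℝ) * r ^ ((j : ℕ) - l) * (-(1 - r ^ 2)) ^ l else 0) *
        (X ^ l * (1 - C r * X) ^ (n - 1 - l) : ℝ[X]).coeff m)]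
    rfl
  rw [h2]
  have h3 : Finset.range ((j : ℕ) + 1) ⊆ Finset.range n :=
    Finset.range_subset_range.mpr j.2
  rw [← Finset.sum_subset h3 fun l hl hnl => h1 l hl (by simpa using hnl)]
  refine Finset.sum_congr rfl fun l hl => ?_
  rw [if_pos (Nat.lt_succ_iff.mp (Finset.mem_range.mp hl))]

lemma det_mA (n : ℕ) (r : ℝ) : (mA n r).det = (-(1 - r ^ 2)) ^ tri n := by
  rw [mA_eq, Matrix.det_mul]
  have hL : (mL n r).det = ∏ i : Fin n, mL n r i i := by
    refine Matrix.det_of_lowerTriangular _ fun i j hij => ?_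
    have h1 : (i : ℕ) < j := hij
    rw [mL, Matrix.of_apply, if_neg (by omega)]
  have hB : (mB n r).det = ∏ i : Fin n, mB n r i i := by
    refine Matrix.det_of_upperTriangular fun i j hij => ?_
    have h1 : (j : ℕ) < i := hij
    rw [mB, Matrix.of_apply, coeff_X_pow_mul', if_neg (by omega)]
  have hLd : ∀ i : Fin n, mL n r i i = (-(1 - r ^ 2)) ^ (i : ℕ) := by
    intro i
    rw [mL, Matrix.of_apply, if_pos le_rfl]
    simp
  have hBd : ∀ i : Fin n, mB n r i i = 1 := by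
    intro i
    rw [mB, Matrix.of_apply, coeff_X_pow_mul', if_pos le_rfl, Nat.sub_self, coeff_zero_eq_eval_zero]
    simp
  rw [hL, hB, Finset.prod_congr rfl fun i _ => hLd i, Finset.prod_congr rfl fun i _ => hBd i,
    Finset.prod_const_one, mul_one, Finset.prod_pow_eq_pow_sum, tri,
    ← Fin.sum_univ_eq_sum_range (fun i => i)]

lemma natDegree_fP (n : ℕ) (r : ℝ) (j : ℕ) (hj : j < n) : (fP n r j).natDegree < n := by
  have h1 : (C r - X : ℝ[X]).natDegree ≤ 1 := by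
    refine (natDegree_sub_le _ _).trans ?_
    simp
  have h2 : (1 - C r * X : ℝ[X]).natDegree ≤ 1 := by
    refine (natDegree_sub_le _ _).trans ?_
    rw [natDegree_one]
    exact max_le (by omega) ((natDegree_C_mul_le _ _).trans natDegree_X_le)
  have h3 : (fP n r j).natDegree ≤ j * 1 + (n - 1 - j) * 1 := by
    refine natDegree_mul_le.trans (add_le_add ?_ ?_)
    · exact natDegree_pow_le.trans (Nat.mul_le_mul_left _ h1)
    · exact natDegree_pow_le.trans (Nat.mul_le_mul_left _ h2)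
  omega

lemma fP_eval (n : ℕ) (r : ℝ) (z : ℂ) (j : Fin n) :
    ((r : ℂ) - z) ^ (j : ℕ) * (1 - r * z) ^ (n - 1 - (j : ℕ)) =
      ∑ m : Fin n, (mA n r j m : ℂ) * z ^ (m : ℕ) := by
  have h1 : (fP n r j).eval₂ (algebraMap ℝ ℂ) z =
      ((r : ℂ) - z) ^ (j : ℕ) * (1 - r * z) ^ (n - 1 - (j : ℕ)) := by
    simp [fP, eval₂_mul, eval₂_pow, eval₂_sub]
  rw [← h1, eval₂_eq_sum_range' _ (natDegree_fP n r j j.2),
    ← Fin.sum_univ_eq_sum_range (fun m => (algebraMap ℝ ℂ) ((fP n r j).coeff m) * z ^ m)]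
  rfl

end Pool.Agent.helper10.SG
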