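import Pool.Agent.helper10.SG.Gser
import Pool.Agent.helper10.SG.MatA

/-!
# The Möbius transformation of the Toeplitz determinant
-/

set_option autoImplicit false
open Filter Topology Complex MeasureTheory
open scoped Real

namespace Pool.Agent.helper10.SG
open Pool.Agent.helper84.SG

/-- the Toeplitz matrix -/
noncomputable def Dm (n : ℕ) (h r : ℝ) : Matrix (Fin n) (Fin n) ℝ :=
  Matrix.of fun i j : Fin n => ∑' k : ℕ, if (i : ℕ) ≤ k ∧ (j : ℕ) ≤ k then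
    r ^ ((k - i) + (k - j)) * cc h (k - i) * cc h (k - j) else 0

lemma Dm_det (n : ℕ) (h r : ℝ) : (Dm n h r).det = Dtoep n h r := rfl

variable {r : ℝ}

lemma Dm_eq (hr : 0 ≤ r) (hr1 : r < 1) (n : ℕ) (h : ℝ) (i j : Fin n) :
    ((Dm n h r i j : ℝ) : ℂ) = av (G r h h ((j : ℤ) - (i : ℤ))) := by
  rw [av_G hr hr1 h h i j, Dm, Matrix.of_apply]
  congr 1
  refine tsum_congr fun k => ?_
  split_ifs
  · ring
  · rfl

lemma Nmat_eq (hr : 0 ≤ r) (hr1 : r < 1) (n : ℕ) (h : ℝ) (i j : Fin n) :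
    ((Nmat n h r i j : ℝ) : ℂ) =
      av (G r (-((n : ℝ) - i + h)) (-((i : ℝ) + h + 1)) ((j : ℤ) - (i : ℤ))) := by
  rw [av_G hr hr1 _ _ i j, Nmat]

lemma circle_ne {z : ℂ} (hz : ‖z‖ = 1) : z ≠ 0 := by
  intro h
  rw [h, norm_zero] at hz
  norm_num at hz

/-- power of a quotient by a point of the slit plane -/
lemma div_cpow' {s : ℝ} (hs : 0 < s) {u : ℂ} (hu : u ∈ slitPlane) (h : ℝ) :
    ((s : ℂ) / u) ^ (h : ℂ) = ((s ^ h : ℝ) : ℂ) * u ^ (-(h : ℂ)) := by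
  have hu0 : u ≠ 0 := slitPlane_ne_zero hu
  have hs0 : (s : ℂ) ≠ 0 := by exact_mod_cast hs.ne'
  rw [ofReal_cpow hs.le, cpow_def_of_ne_zero (div_ne_zero hs0 hu0), cpow_def_of_ne_zero hs0,
    cpow_def_of_ne_zero hu0, div_eq_mul_inv, log_ofReal_mul hs (inv_ne_zero hu0),
    log_inv _ (mem_slitPlane_iff_arg.mp hu).1, ← exp_add, ofReal_log hs.le]
  congr 1
  ring

lemma cpow_shift {u : ℂ} (hu : u ≠ 0) (a : ℝ) (k : ℕ) :
    u ^ ((a + k : ℝ) : ℂ) = u ^ (a : ℂ) * u ^ k := by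
  rw [ofReal_add, cpow_add _ _ hu, ofReal_natCast, cpow_natCast]

lemma pointwise1 (hr : 0 ≤ r) (hr1 : r < 1) (n : ℕ) (h : ℝ) (i j : Fin n) (z : ℂ)
    (hz : ‖z‖ = 1) :
    G r h h ((j : ℤ) - (i : ℤ)) (psi r z) * Pk r z =
      (((1 - r ^ 2) ^ (2 * h + 1) : ℝ) : ℂ) *
        ((((r : ℂ) - z⁻¹) ^ (i : ℕ) * (1 - r * z⁻¹) ^ (n - 1 - (i : ℕ))) *
         (((r : ℂ) - z) ^ (j : ℕ) * (1 - r * z) ^ (n - 1 - (j : ℕ)))) *
        ((1 - r * z) ^ ((-((n : ℝ) + h) : ℝ) : ℂ) * (1 - r * z⁻¹) ^ ((-((n : ℝ) + h) : ℝ) : ℂ)) := by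
  have hz0 := circle_ne hz
  have hzi : ‖z⁻¹‖ = 1 := by rw [norm_inv, hz, inv_one]
  have hus : 1 - (r : ℂ) * z ∈ slitPlane := one_sub_mem hr hr1 hz.le
  have hvs : 1 - (r : ℂ) * z⁻¹ ∈ slitPlane := one_sub_mem hr hr1 hzi.le
  have hu0 := slitPlane_ne_zero hus
  have hv0 := slitPlane_ne_zero hvs
  have hs : (0 : ℝ) < 1 - r ^ 2 := by nlinarith
  have hrz : (r : ℂ) - z ≠ 0 := by
    intro h0
    have := norm_psi hr hr1 hz
    rw [psi, h0, zero_div, norm_zero] at this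
    norm_num at this
  have hrz' : (r : ℂ) - z⁻¹ ≠ 0 := by
    intro h0
    have := norm_psi hr hr1 hzi
    rw [psi, h0, zero_div, norm_zero] at this
    norm_num at this
  have hp : psi r z ≠ 0 := circle_ne (norm_psi hr hr1 hz)
  have hpi : (psi r z)⁻¹ = ((r : ℂ) - z⁻¹) / (1 - r * z⁻¹) := by
    rw [psi, inv_div, div_eq_div_iff hrz hv0]
    field_simp
    ring
  have h1 : 1 - (r : ℂ) * psi r z = ((1 - r ^ 2 : ℝ) : ℂ) / (1 - r * z) := by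
    rw [psi]
    push_cast
    field_simp
    ring
  have h2 : 1 - (r : ℂ) * (psi r z)⁻¹ = ((1 - r ^ 2 : ℝ) : ℂ) / (1 - r * z⁻¹) := by
    rw [hpi, eq_div_iff hv0]
    rw [sub_mul, mul_assoc, div_mul_cancel₀ _ hv0]
    push_cast
    ring
  have h3 : (psi r z) ^ ((j : ℤ) - (i : ℤ)) =
      (((r : ℂ) - z) / (1 - r * z)) ^ (j : ℕ) * (((r : ℂ) - z⁻¹) / (1 - r * z⁻¹)) ^ (i : ℕ) := by
    rw [zpow_sub₀ hp, zpow_natCast, zpow_natCast, ← hpi, inv_pow, psi, div_eq_mul_inv]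
  have hcu : ∀ (w : ℂ), w ≠ 0 → ∀ k : ℕ, k < n → w ^ ((-((n : ℝ) + h) : ℝ) : ℂ) *
      w ^ (n - 1 - k) = w ^ (-(h : ℂ)) / (w ^ k * w) := by
    intro w hw k hk
    rw [eq_div_iff (mul_ne_zero (pow_ne_zero _ hw) hw), mul_assoc, ← pow_succ, ← pow_add,
      show n - 1 - k + (k + 1) = n by omega, ← cpow_shift hw]
    congr 1
    push_cast
    ring
  rw [G, h1, h2, h3, div_cpow' hs hus, div_cpow' hs hvs, Pk]
  have e1 := hcu _ hu0 j j.2
  have e2 := hcu _ hv0 i i.2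
  have e3 : ((1 - r ^ 2) ^ (2 * h + 1) : ℝ) = (1 - r ^ 2) ^ h * (1 - r ^ 2) ^ h * (1 - r ^ 2) := by
    rw [Real.rpow_add hs, Real.rpow_one, two_mul, Real.rpow_add hs]
  rw [e3]
  have e4 : (((1 - r ^ 2) ^ h * (1 - r ^ 2) ^ h * (1 - r ^ 2) : ℝ) : ℂ) *
        ((((r : ℂ) - z⁻¹) ^ (i : ℕ) * (1 - r * z⁻¹) ^ (n - 1 - (i : ℕ))) *
         (((r : ℂ) - z) ^ (j : ℕ) * (1 - r * z) ^ (n - 1 - (j : ℕ)))) *
        ((1 - r * z) ^ ((-((n : ℝ) + h) : ℝ) : ℂ) * (1 - r * z⁻¹) ^ ((-((n : ℝ) + h) : ℝ) : ℂ)) =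
      (((1 - r ^ 2) ^ h * (1 - r ^ 2) ^ h * (1 - r ^ 2) : ℝ) : ℂ) *
        (((r : ℂ) - z⁻¹) ^ (i : ℕ) * ((r : ℂ) - z) ^ (j : ℕ)) *
        ((1 - r * z) ^ ((-((n : ℝ) + h) : ℝ) : ℂ) * (1 - r * z) ^ (n - 1 - (j : ℕ))) *
        ((1 - r * z⁻¹) ^ ((-((n : ℝ) + h) : ℝ) : ℂ) * (1 - r * z⁻¹) ^ (n - 1 - (i : ℕ))) := by
    ring
  rw [e4, e1, e2, div_pow, div_pow]
  generalize (1 - (r : ℂ) * z) ^ (-(h : ℂ)) = X
  generalize (1 - (r : ℂ) * z⁻¹) ^ (-(h : ℂ)) = Y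
  generalize hU : (1 - (r : ℂ) * z) = U at *
  generalize hV : (1 - (r : ℂ) * z⁻¹) = V at *
  generalize (((1 - r ^ 2) ^ h : ℝ)) = S
  push_cast
  field_simp

lemma fP_eval' (n : ℕ) (r : ℝ) (z : ℂ) (j : Fin n) :
    ((r : ℂ) - z) ^ (j : ℕ) * (1 - r * z) ^ (n - 1 - (j : ℕ)) =
      ∑ m : Fin n, (mA n r j m : ℂ) * z ^ (m : ℕ) := fP_eval n r z j

lemma G_add (a b : ℝ) (m k : ℤ) {z : ℂ} (hz : ‖z‖ = 1) :
    G r a b m z * z ^ k = G r a b (m + k) z := by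
  rw [G, G, zpow_add₀ (circle_ne hz)]
  ring

lemma entry1 (hr : 0 ≤ r) (hr1 : r < 1) (n : ℕ) (h : ℝ) (i j : Fin n) :
    Dm n h r i j = (1 - r ^ 2) ^ (2 * h + 1) *
      (mA n r * Dm n (-((n : ℝ) + h)) r * (mA n r).transpose) i j := by
  apply ofReal_injective
  rw [Dm_eq hr hr1, ← av_moebius hr hr1 (cG r h h) (fun x => (x.1 : ℤ) - x.2 + ((j : ℤ) - (i : ℤ)))
    (summable_cG hr hr1 h h) _ (fun z hz => hasSum_G hr hr1 h h _ z hz)]
  have h1 : av (fun z => G r h h ((j : ℤ) - (i : ℤ)) (psi r z) * Pk r z) =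
      av (fun z => (((1 - r ^ 2) ^ (2 * h + 1) : ℝ) : ℂ) * ∑ m : Fin n, ∑ l : Fin n,
        ((mA n r i l : ℂ) * (mA n r j m : ℂ)) *
          G r (-((n : ℝ) + h)) (-((n : ℝ) + h)) ((m : ℤ) - (l : ℤ)) z) := by
    refine av_congr fun z hz => ?_
    have hz0 := circle_ne hz
    rw [pointwise1 hr hr1 n h i j z hz, fP_eval' n r z j, fP_eval' n r z⁻¹ i, mul_assoc]
    congr 1
    rw [Finset.sum_mul_sum, Finset.sum_comm, Finset.sum_mul]
    refine Finset.sum_congr rfl fun m _ => ?_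
    rw [Finset.sum_mul]
    refine Finset.sum_congr rfl fun l _ => ?_
    rw [G, zpow_sub₀ hz0, zpow_natCast, zpow_natCast, inv_pow]
    field_simp
  rw [h1, av_const_mul]
  rw [av_sum]
  · rw [ofReal_mul, Matrix.mul_apply, ofReal_sum]
    congr 1
    refine Finset.sum_congr rfl fun m _ => ?_
    rw [av_sum]
    · rw [Matrix.mul_apply, ofReal_mul, ofReal_sum, Finset.sum_mul]
      refine Finset.sum_congr rfl fun l _ => ?_
      rw [av_const_mul, ofReal_mul, Dm_eq hr hr1, Matrix.transpose_apply]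
      ring
    · intro l _
      exact (Cc.of_cont continuous_const).mul (Cc_G hr hr1 _ _ _)
  · intro m _
    unfold Cc
    refine continuous_finsetSum _ fun l _ => ?_
    exact (Cc.of_cont (f := fun _ => (mA n r i l : ℂ) * (mA n r j m : ℂ)) continuous_const).mul
      (Cc_G hr hr1 _ _ _)

lemma tri_real (n : ℕ) : 2 * (tri n : ℝ) + n = (n : ℝ) ^ 2 := by
  have h3 : (2 * tri n + n : ℕ) = n ^ 2 := by
    induction n with
    | zero => simp [tri]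
    | succ n ih =>
      rw [tri_succ]
      nlinarith
  exact_mod_cast h3

lemma pow_aux1 {s : ℝ} (hs : 0 < s) (n : ℕ) (h : ℝ) :
    (s ^ (2 * h + 1)) ^ n * s ^ (2 * tri n) = s ^ ((n : ℝ) ^ 2 + 2 * n * h) := by
  rw [← Real.rpow_natCast, ← Real.rpow_natCast, ← Real.rpow_mul hs.le, ← Real.rpow_add hs]
  congr 1
  have := tri_real n
  push_cast
  linarith

lemma pow_aux2 {s : ℝ} (hs : 0 < s) (n : ℕ) (h : ℝ) :
    s ^ ((n : ℝ) * (n + 1) / 2 + 2 * n * h) * s ^ (tri n) = s ^ ((n : ℝ) ^ 2 + 2 * n * h) := by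
  rw [← Real.rpow_natCast, ← Real.rpow_add hs]
  congr 1
  have := tri_real n
  linarith

lemma det_entry1 (hr : 0 ≤ r) (hr1 : r < 1) (n : ℕ) (h : ℝ) :
    Dtoep n h r = (1 - r ^ 2) ^ ((n : ℝ) ^ 2 + 2 * n * h) * Dtoep n (-((n : ℝ) + h)) r := by
  have hs : (0 : ℝ) < 1 - r ^ 2 := by nlinarith
  have h1 : Dm n h r = (1 - r ^ 2) ^ (2 * h + 1) •
      (mA n r * Dm n (-((n : ℝ) + h)) r * (mA n r).transpose) := by
    ext i j
    rw [Matrix.smul_apply, smul_eq_mul, entry1 hr hr1]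
  rw [← Dm_det, h1, Matrix.det_smul, Fintype.card_fin, Matrix.det_mul, Matrix.det_mul,
    Matrix.det_transpose, det_mA, Dm_det]
  have h2 : (-(1 - r ^ 2)) ^ tri n * Dtoep n (-((n : ℝ) + h)) r * (-(1 - r ^ 2)) ^ tri n =
      (1 - r ^ 2) ^ (2 * tri n) * Dtoep n (-((n : ℝ) + h)) r := by
    rw [neg_pow (1 - r ^ 2), two_mul, pow_add]
    have : ((-1 : ℝ) ^ tri n) * (-1) ^ tri n = 1 := by rw [← mul_pow]; simp
    linear_combination ((1 - r ^ 2) ^ tri n * (1 - r ^ 2) ^ tri n *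
      Dtoep n (-((n : ℝ) + h)) r) * this
  rw [h2, ← mul_assoc, pow_aux1 hs]

/-- B1' -/
theorem toeplitz_neg (n : ℕ) (r : ℝ) (hr : 0 ≤ r) (hr1 : r < 1) :
    Dtoep n (-(n : ℝ)) r = (1 - r ^ 2) ^ (-((n : ℝ) ^ 2)) := by
  have hs : (0 : ℝ) < 1 - r ^ 2 := by nlinarith
  have h1 := det_entry1 hr hr1 n 0
  have h2 : Dtoep n 0 r = 1 := by
    rw [← Dm_det, show Dm n 0 r = 1 from ?_]
    · simp
    ext i j
    have hc : ∀ k, k ≠ 0 → cc 0 k = 0 := by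
      intro k hk
      rw [cc]
      refine Finset.prod_eq_zero (Finset.mem_range.mpr (Nat.pos_of_ne_zero hk)) ?_
      simp
    rw [Dm, Matrix.of_apply, tsum_eq_single (i : ℕ)]
    · by_cases hij : i = j
      · subst hij
        simp [cc_zero]
      · rw [Matrix.one_apply, if_neg hij]
        split_ifs with hle
        · rw [hc ((i : ℕ) - j) (by
            intro h0
            apply hij
            ext
            omega), mul_zero]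
        · rfl
    · intro k hk
      split_ifs with hle
      · rw [hc (k - i) (by omega), mul_zero, zero_mul]
      · rfl
  rw [h2, mul_zero, add_zero, add_zero] at h1
  rw [Real.rpow_neg hs.le]
  have h3 : (0 : ℝ) < (1 - r ^ 2) ^ ((n : ℝ) ^ 2) := Real.rpow_pos_of_pos hs _
  field_simp
  linarith

lemma pointwise2 (hr : 0 ≤ r) (hr1 : r < 1) (n : ℕ) (h : ℝ) (i j : Fin n) (z : ℂ)
    (hz : ‖z‖ = 1) :
    G r (-((n : ℝ) - i + h)) (-((i : ℝ) + h + 1)) ((j : ℤ) - (i : ℤ)) z =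
      (-1 : ℂ) ^ (n - 1 - (i : ℕ)) *
        ((((r : ℂ) - z) ^ ((Fin.rev i : Fin n) : ℕ) *
          (1 - r * z) ^ (n - 1 - ((Fin.rev i : Fin n) : ℕ))) *
        G r (-((n : ℝ) + h)) (-((n : ℝ) + h)) (-((Fin.rev j : Fin n) : ℤ)) z) := by
  have hz0 := circle_ne hz
  have hzi : ‖z⁻¹‖ = 1 := by rw [norm_inv, hz, inv_one]
  have hu0 := one_sub_ne hr hr1 hz.le
  have hv0 := one_sub_ne hr hr1 hzi.le
  have hi := i.2
  have hj := j.2
  have e1 : (-((n : ℝ) - i + h)) = (-((n : ℝ) + h)) + ((i : ℕ) : ℝ) := by ring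
  have e2 : (-((i : ℝ) + h + 1)) = (-((n : ℝ) + h)) + ((n - 1 - (i : ℕ) : ℕ) : ℝ) := by
    rw [Nat.cast_sub (by omega), Nat.cast_sub (by omega)]
    push_cast
    ring
  have e3 : ((Fin.rev i : Fin n) : ℕ) = n - 1 - (i : ℕ) := by rw [Fin.val_rev]; omega
  have e4 : n - 1 - ((Fin.rev i : Fin n) : ℕ) = (i : ℕ) := by rw [Fin.val_rev]; omega
  have e5 : (1 - (r : ℂ) * z⁻¹) = (-1) * ((r : ℂ) - z) * z⁻¹ := by
    field_simp
    ring
  have e6 : z ^ ((j : ℤ) - (i : ℤ)) = z ^ (n - 1 - (i : ℕ)) * z ^ (-((Fin.rev j : Fin n) : ℤ)) := by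
    rw [← zpow_natCast, ← zpow_add₀ hz0, Fin.val_rev]
    congr 1
    omega
  rw [G, e1, cpow_shift hu0, e2, cpow_shift hv0, G, e4, e3, e6]
  have e7 : (1 - (r : ℂ) * z⁻¹) ^ (n - 1 - (i : ℕ)) * z ^ (n - 1 - (i : ℕ)) =
      (-1) ^ (n - 1 - (i : ℕ)) * ((r : ℂ) - z) ^ (n - 1 - (i : ℕ)) := by
    rw [e5, ← mul_pow, ← mul_pow]
    congr 1
    field_simp
  linear_combination ((1 - (r : ℂ) * z) ^ ((-((n : ℝ) + h) : ℝ) : ℂ) *
    (1 - (r : ℂ) * z) ^ (i : ℕ) * (1 - (r : ℂ) * z⁻¹) ^ ((-((n : ℝ) + h) : ℝ) : ℂ) *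
    z ^ (-((Fin.rev j : Fin n) : ℤ))) * e7

lemma entry2 (hr : 0 ≤ r) (hr1 : r < 1) (n : ℕ) (h : ℝ) (i j : Fin n) :
    Nmat n h r i j = (-1) ^ (n - 1 - (i : ℕ)) *
      (mA n r * (Dm n (-((n : ℝ) + h)) r).transpose) (Fin.rev i) (Fin.rev j) := by
  apply ofReal_injective
  rw [Nmat_eq hr hr1]
  have h1 : av (G r (-((n : ℝ) - i + h)) (-((i : ℝ) + h + 1)) ((j : ℤ) - (i : ℤ))) =
      av (fun z => (-1 : ℂ) ^ (n - 1 - (i : ℕ)) * ∑ m : Fin n, (mA n r (Fin.rev i) m : ℂ) *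
        G r (-((n : ℝ) + h)) (-((n : ℝ) + h)) ((m : ℤ) - ((Fin.rev j : Fin n) : ℤ)) z) := by
    refine av_congr fun z hz => ?_
    rw [pointwise2 hr hr1 n h i j z hz, fP_eval', Finset.sum_mul]
    congr 1
    refine Finset.sum_congr rfl fun m _ => ?_
    rw [sub_eq_neg_add, ← G_add _ _ _ _ hz, zpow_natCast]
    ring
  rw [h1, av_const_mul, av_sum]
  · rw [ofReal_mul, Matrix.mul_apply, ofReal_sum]
    congr 1
    · push_cast; rfl
    refine Finset.sum_congr rfl fun m _ => ?_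
    rw [av_const_mul, ofReal_mul, Matrix.transpose_apply, Dm_eq hr hr1]
  · intro m _
    exact (Cc.of_cont continuous_const).mul (Cc_G hr hr1 _ _ _)

/-- B1 -/
theorem toeplitz_transform (n : ℕ) (h r : ℝ) (hr : 0 ≤ r) (hr1 : r < 1) :
    (1 - r ^ 2) ^ ((n : ℝ) * (n + 1) / 2 + 2 * n * h) * (Nmat n h r).det = Dtoep n h r := by
  have hs : (0 : ℝ) < 1 - r ^ 2 := by nlinarith
  have h1 : Nmat n h r = Matrix.of fun i j => (-1 : ℝ) ^ ((Fin.rev i : Fin n) : ℕ) *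
      ((mA n r * (Dm n (-((n : ℝ) + h)) r).transpose).submatrix Fin.revPerm Fin.revPerm) i j := by
    ext i j
    rw [Matrix.of_apply, entry2 hr hr1, Matrix.submatrix_apply, Fin.revPerm_apply,
      Fin.revPerm_apply, Fin.val_rev]
    congr 2
    omega
  have h2 : (∏ i : Fin n, (-1 : ℝ) ^ ((Fin.rev i : Fin n) : ℕ)) = (-1) ^ tri n := by
    have := Equiv.prod_comp (Fin.revPerm (n := n)) (fun i : Fin n => (-1 : ℝ) ^ (i : ℕ))
    simp only [Fin.revPerm_apply] at this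
    rw [this, Finset.prod_pow_eq_pow_sum, tri, ← Fin.sum_univ_eq_sum_range (fun i => i)]
  have h3 : (Nmat n h r).det = (1 - r ^ 2) ^ tri n * Dtoep n (-((n : ℝ) + h)) r := by
    rw [h1, Matrix.det_mul_column, h2, Matrix.det_submatrix_equiv_self, Matrix.det_mul,
      Matrix.det_transpose, det_mA, Dm_det, neg_pow (1 - r ^ 2)]
    have : ((-1 : ℝ) ^ tri n) * (-1) ^ tri n = 1 := by rw [← mul_pow]; simp
    linear_combination ((1 - r ^ 2) ^ tri n * Dtoep n (-((n : ℝ) + h)) r) * this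
  rw [h3, det_entry1 hr hr1 n h, ← mul_assoc, pow_aux2 hs]

end Pool.Agent.helper10.SG
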