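import Pool.Agent.helper10.SG.Defs

/-!
# Binomial coefficients `cc`
-/

set_option autoImplicit false
open Filter Topology

namespace Pool.Agent.helper10.SG
open Pool.Agent.helper84.SG

lemma cc_zero (h : ℝ) : cc h 0 = 1 := by simp [cc]

lemma cc_succ (h : ℝ) (k : ℕ) : cc h (k + 1) = cc h k * (((k : ℝ) - h) / ((k : ℝ) + 1)) := by
  rw [cc, Finset.prod_range_succ, cc]

lemma choose_succ_real (a : ℝ) (k : ℕ) :
    Ring.choose a (k + 1) = Ring.choose a k * ((a - k) / ((k : ℝ) + 1)) := by
  have h1 : ((k + 1).factorial : ℝ) * Ring.choose a (k + 1) =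
      (descPochhammer ℤ (k + 1)).smeval a := by
    rw [Ring.descPochhammer_eq_factorial_smul_choose]; simp
  have h2 : ((k).factorial : ℝ) * Ring.choose a k = (descPochhammer ℤ k).smeval a := by
    rw [Ring.descPochhammer_eq_factorial_smul_choose]; simp
  have h3 : (descPochhammer ℤ (k + 1)).smeval a = (descPochhammer ℤ k).smeval a * (a - k) := by
    simp [descPochhammer_succ_right, Polynomial.smeval_mul, Polynomial.smeval_natCast]
  rw [← h1, ← h2, Nat.factorial_succ] at h3
  have h4 : ((k.factorial : ℕ) : ℝ) ≠ 0 := by positivity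
  have h5 : ((k : ℝ) + 1) ≠ 0 := by positivity
  push_cast at h3
  field_simp
  have := mul_left_cancel₀ h4 (a := (k.factorial : ℝ))
    (b := ((k : ℝ) + 1) * Ring.choose a (k + 1)) (c := Ring.choose a k * (a - k)) (by linarith)
  linarith

lemma cc_eq_choose (a : ℝ) (k : ℕ) : cc a k = (-1) ^ k * Ring.choose a k := by
  induction k with
  | zero => simp [cc_zero]
  | succ k ih =>
    rw [cc_succ, ih, choose_succ_real, pow_succ]
    ring

lemma hasSum_cc_complex (a : ℝ) (z : ℂ) (hz : ‖z‖ < 1) :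
    HasSum (fun k => (cc a k : ℂ) * z ^ k) ((1 - z) ^ (a : ℂ)) := by
  have hm : -z ∈ Metric.eball (0 : ℂ) 1 := by
    rw [Metric.mem_eball, edist_zero_right, enorm_neg, ← ofReal_norm]
    exact ENNReal.ofReal_lt_one.mpr hz
  have h1 := (Complex.one_add_cpow_hasFPowerSeriesOnBall_zero (a := (a : ℂ))).hasSum hm
  simp only [zero_add] at h1
  have e : (1 : ℂ) + -z = 1 - z := by ring
  rw [e] at h1
  convert! h1 using 1
  ext k
  rw [binomialSeries_apply, cc_eq_choose]
  push_cast
  rw [List.ofFn_const, List.prod_replicate, smul_eq_mul,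
    show (-z) ^ k = (-1) ^ k * z ^ k by rw [← mul_pow]; ring]
  ring

lemma hasSum_cc_real (a : ℝ) (x : ℝ) (hx : |x| < 1) :
    HasSum (fun k => cc a k * x ^ k) ((1 - x) ^ a) := by
  have hm : -x ∈ Metric.eball (0 : ℝ) 1 := by
    rw [Metric.mem_eball, edist_zero_right, enorm_neg, ← ofReal_norm]
    exact ENNReal.ofReal_lt_one.mpr (by simpa using hx)
  have h1 := (Real.one_add_rpow_hasFPowerSeriesOnBall_zero (a := a)).hasSum hm
  simp only [zero_add] at h1
  have e : (1 : ℝ) + -x = 1 - x := by ring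
  rw [e] at h1
  convert! h1 using 1
  ext k
  rw [binomialSeries_apply, cc_eq_choose, List.ofFn_const, List.prod_replicate, smul_eq_mul,
    show (-x) ^ k = (-1) ^ k * x ^ k by rw [← mul_pow]; ring]
  ring

lemma summable_cc (a x : ℝ) (hx0 : 0 ≤ x) (hx : x < 1) :
    Summable fun k => |cc a k| * x ^ k := by
  have h1 : Summable fun k => |cc a k * x ^ k| :=
    (hasSum_cc_real a x (by rwa [abs_of_nonneg hx0])).summable.abs
  refine h1.congr fun k => ?_
  rw [abs_mul, abs_of_nonneg (pow_nonneg hx0 k)]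

end Pool.Agent.helper10.SG
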