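import Pool.Agent.helper10.SG.Basic

/-!
# Averages over the unit circle and the Möbius change of variables
-/

set_option autoImplicit false
open Filter Topology Complex MeasureTheory
open scoped Real

namespace Pool.Agent.helper10.SG
open Pool.Agent.helper84.SG

/-- average over the unit circle -/
noncomputable def av (f : ℂ → ℂ) : ℂ :=
  (2 * (π : ℂ))⁻¹ * ∫ θ in (0 : ℝ)..(2 * π), f (circleMap 0 1 θ)

/-- continuity on the circle -/
def Cc (f : ℂ → ℂ) : Prop := Continuous fun θ : ℝ => f (circleMap 0 1 θ)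

lemma norm_cm (θ : ℝ) : ‖circleMap 0 1 θ‖ = 1 := by simp

lemma av_congr {f g : ℂ → ℂ} (h : ∀ z, ‖z‖ = 1 → f z = g z) : av f = av g := by
  unfold av
  congr 1
  refine intervalIntegral.integral_congr fun θ _ => ?_
  exact h _ (norm_cm θ)

lemma Cc_congr {f g : ℂ → ℂ} (h : ∀ z, ‖z‖ = 1 → f z = g z) (hf : Cc f) : Cc g := by
  unfold Cc at *
  refine hf.congr fun θ => h _ (norm_cm θ)

lemma Cc.of_cont {f : ℂ → ℂ} (h : Continuous f) : Cc f := h.comp (continuous_circleMap 0 1)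

lemma Cc.mul {f g : ℂ → ℂ} (hf : Cc f) (hg : Cc g) : Cc (fun z => f z * g z) := by
  unfold Cc at *
  exact hf.mul hg

lemma Cc.zpow {f : ℂ → ℂ} (hf : Cc f) (m : ℤ) (h0 : ∀ z, ‖z‖ = 1 → f z ≠ 0) :
    Cc (fun z => f z ^ m) := by
  unfold Cc at *
  exact hf.zpow₀ m fun θ => Or.inl (h0 _ (norm_cm θ))

lemma Cc.id : Cc (fun z => z) := Cc.of_cont continuous_id

lemma Cc_zpow (m : ℤ) : Cc (fun z => z ^ m) := Cc.id.zpow m fun z hz h0 => by
  rw [h0, norm_zero] at hz; norm_num at hz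

lemma av_const_mul (c : ℂ) (f : ℂ → ℂ) : av (fun z => c * f z) = c * av f := by
  unfold av
  rw [intervalIntegral.integral_const_mul]
  ring

lemma av_sum {ι : Type*} (s : Finset ι) (f : ι → ℂ → ℂ) (hf : ∀ i ∈ s, Cc (f i)) :
    av (fun z => ∑ i ∈ s, f i z) = ∑ i ∈ s, av (f i) := by
  unfold av
  rw [intervalIntegral.integral_finsetSum, Finset.mul_sum]
  intro i hi
  exact (hf i hi).intervalIntegrable _ _

lemma av_hasSum {ι : Type*} [Countable ι] (F : ι → ℂ → ℂ) (f : ℂ → ℂ) (B : ι → ℝ)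
    (hF : ∀ i, Cc (F i)) (hB : ∀ i z, ‖z‖ = 1 → ‖F i z‖ ≤ B i) (hs : Summable B)
    (h : ∀ z, ‖z‖ = 1 → HasSum (fun i => F i z) (f z)) :
    HasSum (fun i => av (F i)) (av f) := by
  unfold av
  refine HasSum.mul_left _ ?_
  refine intervalIntegral.hasSum_integral_of_dominated_convergence (fun i _ => B i) ?_ ?_ ?_ ?_ ?_
  · intro i
    exact (hF i).aestronglyMeasurable
  · intro i
    exact ae_of_all _ fun θ _ => hB i _ (norm_cm θ)
  · exact ae_of_all _ fun θ _ => hs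
  · exact intervalIntegrable_const
  · exact ae_of_all _ fun θ _ => h _ (norm_cm θ)

lemma av_eq_circle (f : ℂ → ℂ) :
    av f = (2 * (π : ℂ) * I)⁻¹ * ∮ z in C(0, 1), z⁻¹ * f z := by
  unfold av circleIntegral
  have h1 : ∀ θ : ℝ, deriv (circleMap 0 1) θ • ((circleMap 0 1 θ)⁻¹ * f (circleMap 0 1 θ)) =
      I * f (circleMap 0 1 θ) := by
    intro θ
    have h0 : circleMap 0 1 θ ≠ 0 := circleMap_ne_center one_ne_zero
    rw [deriv_circleMap, smul_eq_mul]
    field_simp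
  simp_rw [h1]
  rw [intervalIntegral.integral_const_mul]
  have : I ≠ 0 := I_ne_zero
  have : (π : ℂ) ≠ 0 := by exact_mod_cast Real.pi_ne_zero
  field_simp

lemma av_zpow (m : ℤ) : av (fun z => z ^ m) = if m = 0 then 1 else 0 := by
  rw [av_eq_circle]
  have h1 : (∮ z in C(0, 1), z⁻¹ * z ^ m) = ∮ z in C(0, 1), (z - 0) ^ (m - 1) := by
    refine circleIntegral.integral_congr zero_le_one fun z hz => ?_
    have h0 : z ≠ 0 := by
      intro h
      rw [h] at hz
      simp at hz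
    simp only [sub_zero]
    rw [zpow_sub_one₀ h0, mul_comm]
  rw [h1]
  split_ifs with hm
  · subst hm
    have h2 : (∮ z in C(0, 1), (z - 0) ^ ((0 : ℤ) - 1)) = 2 * π * I := by
      have := circleIntegral.integral_sub_inv_of_mem_ball (c := 0) (w := 0) (R := 1)
        (Metric.mem_ball_self one_pos)
      rw [← this]
      refine circleIntegral.integral_congr zero_le_one fun z _ => ?_
      simp
    rw [h2]
    have : I ≠ 0 := I_ne_zero
    have : (π : ℂ) ≠ 0 := by exact_mod_cast Real.pi_ne_zero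
    field_simp
  · rw [circleIntegral.integral_sub_zpow_of_ne (by omega)]
    simp

lemma av_conj (f : ℂ → ℂ) : av (fun z => (starRingEnd ℂ) (f z)) = (starRingEnd ℂ) (av f) := by
  unfold av
  rw [map_mul, ← intervalIntegral.intervalIntegral_conj]
  congr 1
  rw [map_inv₀, map_mul, conj_ofReal, show (2 : ℂ) = ((2 : ℝ) : ℂ) by norm_num, conj_ofReal]

section moebius
variable {r : ℝ}

lemma one_sub_ne (hr : 0 ≤ r) (hr1 : r < 1) {z : ℂ} (hz : ‖z‖ ≤ 1) : 1 - r * z ≠ 0 := by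
  intro h
  have h1 : (r : ℂ) * z = 1 := (sub_eq_zero.mp h).symm
  have h2 : ‖(r : ℂ) * z‖ = 1 := by rw [h1]; simp
  rw [norm_mul, norm_real, Real.norm_eq_abs, abs_of_nonneg hr] at h2
  nlinarith [norm_nonneg z]

lemma one_sub_mem (hr : 0 ≤ r) (hr1 : r < 1) {z : ℂ} (hz : ‖z‖ ≤ 1) : 1 - r * z ∈ slitPlane := by
  refine Or.inl ?_
  have h1 : ((r : ℂ) * z).re ≤ r := by
    rw [re_ofReal_mul]
    have := (abs_re_le_norm z).trans hz
    have := (abs_le.mp this).2
    nlinarith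
  rw [sub_re, one_re]
  linarith

/-- the Möbius involution -/
noncomputable def psi (r : ℝ) (z : ℂ) : ℂ := (r - z) / (1 - r * z)

/-- the Poisson kernel -/
noncomputable def Pk (r : ℝ) (z : ℂ) : ℂ := (1 - (r : ℂ) ^ 2) / ((1 - r * z) * (1 - r * z⁻¹))

lemma norm_sub_eq {z : ℂ} (hz : ‖z‖ = 1) : ‖(r : ℂ) - z‖ = ‖1 - (r : ℂ) * z‖ := by
  have h1 : ‖(r : ℂ) - z‖ ^ 2 = ‖1 - (r : ℂ) * z‖ ^ 2 := by
    rw [← normSq_eq_norm_sq, ← normSq_eq_norm_sq, normSq_apply, normSq_apply]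
    have h2 : z.re * z.re + z.im * z.im = 1 := by
      rw [← normSq_apply, normSq_eq_norm_sq, hz]; norm_num
    simp only [sub_re, sub_im, ofReal_re, ofReal_im, one_re, one_im, mul_re, mul_im]
    linear_combination (1 - r ^ 2) * h2
  exact (sq_eq_sq₀ (norm_nonneg _) (norm_nonneg _)).mp h1

lemma norm_psi (hr : 0 ≤ r) (hr1 : r < 1) {z : ℂ} (hz : ‖z‖ = 1) : ‖psi r z‖ = 1 := by
  rw [psi, norm_div, norm_sub_eq hz, div_self]
  exact norm_ne_zero_iff.mpr (one_sub_ne hr hr1 hz.le)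

lemma Cc_psi (hr : 0 ≤ r) (hr1 : r < 1) : Cc (psi r) := by
  unfold Cc psi
  refine Continuous.div (by fun_prop) (by fun_prop) fun θ => ?_
  exact one_sub_ne hr hr1 (norm_cm θ).le

lemma Cc_Pk (hr : 0 ≤ r) (hr1 : r < 1) : Cc (Pk r) := by
  unfold Cc Pk
  refine Continuous.div (by fun_prop) ?_ fun θ => ?_
  · refine Continuous.mul (by fun_prop) ?_
    refine continuous_const.sub (continuous_const.mul ?_)
    exact (continuous_circleMap 0 1).inv₀ fun θ => circleMap_ne_center one_ne_zero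
  · refine mul_ne_zero (one_sub_ne hr hr1 (norm_cm θ).le) (one_sub_ne hr hr1 ?_)
    rw [norm_inv, norm_cm]; norm_num

lemma norm_Pk_le (hr : 0 ≤ r) (hr1 : r < 1) {z : ℂ} (hz : ‖z‖ = 1) :
    ‖Pk r z‖ ≤ (1 - r ^ 2) / (1 - r) ^ 2 := by
  have hlow : ∀ w : ℂ, ‖w‖ = 1 → 1 - r ≤ ‖1 - (r : ℂ) * w‖ := by
    intro w hw
    have := norm_sub_norm_le (1 : ℂ) ((r : ℂ) * w)
    rw [norm_mul, hw, norm_real, Real.norm_eq_abs, abs_of_nonneg hr, norm_one, mul_one] at this
    exact this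
  have h1 := hlow z hz
  have h2 := hlow z⁻¹ (by rw [norm_inv, hz, inv_one])
  have h0 : (0 : ℝ) < 1 - r := by linarith
  rw [Pk, norm_div, norm_mul]
  have h3 : ‖(1 : ℂ) - (r : ℂ) ^ 2‖ = 1 - r ^ 2 := by
    rw [← ofReal_pow, ← ofReal_one, ← ofReal_sub, norm_real, Real.norm_eq_abs, abs_of_nonneg]
    nlinarith
  rw [h3]
  refine div_le_div_of_nonneg_left (by nlinarith) (by positivity) ?_
  rw [sq]
  exact mul_le_mul h1 h2 h0.le (norm_nonneg _)

lemma av_poisson_nat (hr : 0 ≤ r) (hr1 : r < 1) (m : ℕ) :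
    av (fun z => psi r z ^ m * Pk r z) = if m = 0 then 1 else 0 := by
  rw [av_eq_circle]
  have h1 : (∮ z in C(0, 1), z⁻¹ * (psi r z ^ m * Pk r z)) =
      ∮ z in C(0, 1), (z - (r : ℂ))⁻¹ • (psi r z ^ m * ((1 - (r : ℂ) ^ 2) / (1 - r * z))) := by
    refine circleIntegral.integral_congr zero_le_one fun z hz => ?_
    have hz1 : ‖z‖ = 1 := by simpa using hz
    have h0 : z ≠ 0 := by
      intro h
      rw [h, norm_zero] at hz1
      norm_num at hz1
    have h2 : 1 - (r : ℂ) * z ≠ 0 := one_sub_ne hr hr1 hz1.le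
    have h3 : 1 - (r : ℂ) * z⁻¹ ≠ 0 := one_sub_ne hr hr1 (by rw [norm_inv, hz1, inv_one])
    have h4 : z - (r : ℂ) ≠ 0 := by
      intro h
      apply h3
      rw [sub_eq_zero] at h
      rw [← h, mul_inv_cancel₀ h0, sub_self]
    have h5 : 1 - (r : ℂ) * z⁻¹ = (z - r) * z⁻¹ := by
      rw [sub_mul, mul_inv_cancel₀ h0]
    simp only [smul_eq_mul]
    rw [Pk, h5]
    field_simp
  rw [h1]
  have hd : DifferentiableOn ℂ (fun z => psi r z ^ m * ((1 - (r : ℂ) ^ 2) / (1 - r * z)))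
      (Metric.closedBall 0 1) := by
    intro z hz
    have hz1 : ‖z‖ ≤ 1 := by simpa using hz
    have h2 : 1 - (r : ℂ) * z ≠ 0 := one_sub_ne hr hr1 hz1
    refine DifferentiableAt.differentiableWithinAt ?_
    unfold psi
    fun_prop (disch := exact h2)
  have hw : (r : ℂ) ∈ Metric.ball (0 : ℂ) 1 := by
    simp [abs_of_nonneg hr, hr1]
  rw [hd.circleIntegral_sub_inv_smul hw]
  have h6 : psi r (r : ℂ) = 0 := by simp [psi]
  have h7 : (1 : ℂ) - (r : ℂ) * r ≠ 0 := one_sub_ne hr hr1 (by simp [abs_of_nonneg hr, hr1.le])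
  have : I ≠ 0 := I_ne_zero
  have : (π : ℂ) ≠ 0 := by exact_mod_cast Real.pi_ne_zero
  rw [h6, smul_eq_mul, ← sq] at *
  split_ifs with hm
  · subst hm
    field_simp
  · rw [zero_pow hm]
    simp

lemma conj_inv_of_norm {z : ℂ} (hz : ‖z‖ = 1) : (starRingEnd ℂ) z = z⁻¹ := by
  rw [inv_def, normSq_eq_norm_sq, hz]
  simp

lemma av_poisson (hr : 0 ≤ r) (hr1 : r < 1) (m : ℤ) :
    av (fun z => psi r z ^ m * Pk r z) = if m = 0 then 1 else 0 := by
  rcases Int.eq_nat_or_neg m with ⟨k, hk | hk⟩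
  · subst hk
    have := av_poisson_nat hr hr1 k
    simp only [zpow_natCast, this, Nat.cast_eq_zero]
  · subst hk
    have h1 : av (fun z => psi r z ^ (-(k : ℤ)) * Pk r z) =
        av (fun z => (starRingEnd ℂ) (psi r z ^ k * Pk r z)) := by
      refine av_congr fun z hz => ?_
      rw [map_mul, map_pow, conj_inv_of_norm (norm_psi hr hr1 hz), zpow_neg, zpow_natCast, inv_pow]
      congr 1
      rw [Pk, map_div₀, map_mul]
      simp only [map_sub, map_one, map_mul, conj_ofReal, map_pow, map_inv₀]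
      rw [conj_inv_of_norm hz, inv_inv]
      ring
    rw [h1, av_conj, av_poisson_nat hr hr1 k]
    by_cases hk : k = 0 <;> simp [hk]

/-- change of variables -/
lemma av_moebius (hr : 0 ≤ r) (hr1 : r < 1) {ι : Type*} [Countable ι] (c : ι → ℂ) (e : ι → ℤ)
    (hc : Summable fun i => ‖c i‖) (F : ℂ → ℂ)
    (hF : ∀ z, ‖z‖ = 1 → HasSum (fun i => c i * z ^ e i) (F z)) :
    av (fun z => F (psi r z) * Pk r z) = av F := by
  have h1 : HasSum (fun i => av (fun z => c i * z ^ e i)) (av F) := by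
    refine av_hasSum _ _ (fun i => ‖c i‖) (fun i => ?_) (fun i z hz => ?_) hc hF
    · exact (Cc.of_cont continuous_const).mul (Cc_zpow _)
    · rw [norm_mul, norm_zpow, hz, one_zpow, mul_one]
  have h2 : HasSum (fun i => av (fun z => (c i * psi r z ^ e i) * Pk r z))
      (av (fun z => F (psi r z) * Pk r z)) := by
    refine av_hasSum _ _ (fun i => ‖c i‖ * ((1 - r ^ 2) / (1 - r) ^ 2)) (fun i => ?_)
      (fun i z hz => ?_) (hc.mul_right _) fun z hz => ?_
    · refine ((Cc.of_cont continuous_const).mul ((Cc_psi hr hr1).zpow _ fun z hz h0 => ?_)).mul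
        (Cc_Pk hr hr1)
      have := norm_psi hr hr1 hz
      rw [h0, norm_zero] at this
      norm_num at this
    · rw [norm_mul, norm_mul, norm_zpow, norm_psi hr hr1 hz, one_zpow, mul_one]
      exact mul_le_mul_of_nonneg_left (norm_Pk_le hr hr1 hz) (norm_nonneg _)
    · exact (hF _ (norm_psi hr hr1 hz)).mul_right _
  refine h2.unique ?_
  convert! h1 using 1
  ext i
  simp_rw [mul_assoc]
  rw [av_const_mul, av_const_mul, av_poisson hr hr1, av_zpow]

end moebius

end Pool.Agent.helper10.SG
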