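import Pool.Agent.helper10.SG.Basic

/-!
# Combinatorics of the minors
-/

set_option autoImplicit false
open Filter Topology

namespace Pool.Agent.helper10.SG
open Pool.Agent.helper84.SG

/-- shifted coefficients -/
noncomputable def ccm (h : ℝ) (k i : ℕ) : ℝ := if i ≤ k then cc h (k - i) else 0

/-- minors -/
noncomputable def md {n : ℕ} (h : ℝ) (f : Fin n → ℕ) : ℝ :=
  (Matrix.of fun i j : Fin n => ccm h (f j) i).det

/-- sums of squares of minors -/
noncomputable def bb (n s : ℕ) (h : ℝ) : ℝ :=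
  ∑ f ∈ Finset.Nat.antidiagonalTuple n s, md h f ^ 2

/-- `0 + 1 + ... + (n-1)` -/
def tri (n : ℕ) : ℕ := ∑ i ∈ Finset.range n, i

lemma tri_succ (n : ℕ) : tri (n + 1) = tri n + n := by
  simp [tri, Finset.sum_range_succ]

lemma ccm_succ (h : ℝ) (k i : ℕ) : ccm h (k + 1) (i + 1) = ccm h k i := by
  simp [ccm]

lemma ccm_zero_succ (h : ℝ) (i : ℕ) : ccm h 0 (i + 1) = 0 := by
  simp [ccm]

lemma ccm_zero_zero (h : ℝ) : ccm h 0 0 = 1 := by
  simp [ccm, cc_zero]

lemma md_inj {n : ℕ} {h : ℝ} {f : Fin n → ℕ} (hf : md h f ≠ 0) : Function.Injective f := by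
  intro a b hab
  by_contra hne
  apply hf
  rw [md]
  refine Matrix.det_zero_of_column_eq hne fun i => ?_
  simp [hab]

/-- insert a zero -/
def ins {n : ℕ} (j : Fin (n + 1)) (f : Fin n → ℕ) : Fin (n + 1) → ℕ :=
  j.insertNth 0 (fun k => f k + 1)

lemma ins_same {n : ℕ} (j : Fin (n + 1)) (f : Fin n → ℕ) : ins j f j = 0 := by
  simp [ins]

lemma ins_succAbove {n : ℕ} (j : Fin (n + 1)) (f : Fin n → ℕ) (k : Fin n) :
    ins j f (j.succAbove k) = f k + 1 := by
  simp [ins]

lemma md_ins {n : ℕ} (h : ℝ) (j : Fin (n + 1)) (f : Fin n → ℕ) :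
    md h (ins j f) ^ 2 = md h f ^ 2 := by
  have h1 : md h (ins j f) = (-1) ^ (j : ℕ) * md h f := by
    rw [md, Matrix.det_succ_column _ j, Fin.sum_univ_succ]
    have h2 : ∀ i : Fin n, (-1 : ℝ) ^ ((i.succ : ℕ) + (j : ℕ)) *
        (Matrix.of fun i k : Fin (n + 1) => ccm h (ins j f k) i) i.succ j *
        ((Matrix.of fun i k : Fin (n + 1) => ccm h (ins j f k) i).submatrix i.succ.succAbove
          j.succAbove).det = 0 := by
      intro i
      rw [Matrix.of_apply, ins_same, Fin.val_succ, ccm_zero_succ]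
      ring
    rw [Finset.sum_eq_zero fun i _ => h2 i, add_zero, Matrix.of_apply, ins_same, Fin.val_zero,
      ccm_zero_zero, mul_one, zero_add, md]
    congr 2
    ext i k
    simp [ins_succAbove, ccm_succ]
  rw [h1, mul_pow, ← pow_mul, mul_comm (j : ℕ) 2, pow_mul]
  simp

lemma sum_ins {n : ℕ} (j : Fin (n + 1)) (f : Fin n → ℕ) :
    ∑ k, ins j f k = (∑ k, f k) + n := by
  rw [Fin.sum_univ_succAbove _ j, ins_same]
  simp [ins_succAbove, Finset.sum_add_distrib]

lemma ins_inj {n : ℕ} : Function.Injective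
    (fun x : Fin (n + 1) × (Fin n → ℕ) => ins x.1 x.2) := by
  rintro ⟨j, f⟩ ⟨j', f'⟩ he
  simp only at he
  have hj : j = j' := by
    by_contra hne
    obtain ⟨k, hk⟩ := Fin.exists_succAbove_eq hne
    have h1 := congrFun he j
    rw [ins_same, ← hk, ins_succAbove] at h1
    omega
  subst hj
  refine Prod.ext rfl ?_
  funext k
  have h1 := congrFun he (j.succAbove k)
  rw [ins_succAbove, ins_succAbove] at h1
  simpa using h1

lemma sum_inj_ge {m : ℕ} (f : Fin m → ℕ) (hf : Function.Injective f) : tri m ≤ ∑ i, f i := by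
  induction m with
  | zero => simp [tri]
  | succ m ih =>
    have h1 : ∃ i, m ≤ f i := by
      by_contra hcon
      push Not at hcon
      have h2 : Function.Injective (fun i => (⟨f i, hcon i⟩ : Fin m)) := by
        intro a b hab
        apply hf
        simpa using hab
      have := Fintype.card_le_of_injective _ h2
      simp at this
    obtain ⟨i, hi⟩ := h1
    have h2 := ih (fun k => f (i.succAbove k)) (fun a b hab => by
      have := hf hab
      exact Fin.succAbove_right_injective this)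
    rw [Fin.sum_univ_succAbove _ i, tri_succ]
    omega

lemma sum_prod_ins (n s : ℕ) (h : ℝ) :
    ∑ f ∈ ((Finset.univ : Finset (Fin (n + 1))) ×ˢ Finset.Nat.antidiagonalTuple n s).image
      (fun x => ins x.1 x.2), md h f ^ 2 = (n + 1) * bb n s h := by
  classical
  rw [Finset.sum_image fun a _ b _ hab => ins_inj hab, Finset.sum_product]
  simp only [md_ins]
  rw [Finset.sum_const, bb]
  simp

lemma image_ins_subset (n s : ℕ) :
    ((Finset.univ : Finset (Fin (n + 1))) ×ˢ Finset.Nat.antidiagonalTuple n s).image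
      (fun x => ins x.1 x.2) ⊆ Finset.Nat.antidiagonalTuple (n + 1) (s + n) := by
  intro f hf
  rw [Finset.mem_image] at hf
  obtain ⟨⟨j, g⟩, hx, rfl⟩ := hf
  rw [Finset.mem_product, Finset.Nat.mem_antidiagonalTuple] at hx
  rw [Finset.Nat.mem_antidiagonalTuple, sum_ins, hx.2]

lemma bb_succ_ge (n s : ℕ) (h : ℝ) : (n + 1) * bb n s h ≤ bb (n + 1) (s + n) h := by
  rw [← sum_prod_ins, bb]
  exact Finset.sum_le_sum_of_subset_of_nonneg (image_ins_subset n s) fun _ _ _ => sq_nonneg _

lemma bb_succ_eq (n p : ℕ) (hp : p ≤ n) (h : ℝ) :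
    (n + 1) * bb n (p + tri n) h = bb (n + 1) (p + tri n + n) h := by
  rw [← sum_prod_ins, bb]
  refine Finset.sum_subset (image_ins_subset n _) fun f hf hnf => ?_
  by_contra hne
  have hm : md h f ≠ 0 := fun h0 => hne (by rw [h0]; ring)
  have hinj := md_inj hm
  rw [Finset.Nat.mem_antidiagonalTuple] at hf
  have h0 : ∃ j, f j = 0 := by
    by_contra hcon
    push Not at hcon
    have h2 := sum_inj_ge (fun i => f i - 1) (fun a b hab => by
      apply hinj
      have := hcon a; have := hcon b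
      simp only at hab
      omega)
    have h4 : ∑ i : Fin (n + 1), 1 = n + 1 := by simp
    have h3 : ∑ i, f i = ∑ i, (f i - 1) + ∑ i : Fin (n + 1), 1 := by
      rw [← Finset.sum_add_distrib]
      refine Finset.sum_congr rfl fun i _ => ?_
      have := hcon i
      omega
    rw [tri_succ] at h2
    omega
  obtain ⟨j, hj⟩ := h0
  apply hnf
  rw [Finset.mem_image]
  have hpos : ∀ k, f (j.succAbove k) ≠ 0 := by
    intro k hk
    have := hinj (hk.trans hj.symm)
    exact Fin.succAbove_ne j k this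
  have he : ins j (fun k => f (j.succAbove k) - 1) = f := by
    funext i
    by_cases hi : i = j
    · rw [hi, ins_same, hj]
    · obtain ⟨k, rfl⟩ := Fin.exists_succAbove_eq hi
      rw [ins_succAbove]
      have := hpos k
      omega
  refine ⟨(j, fun k => f (j.succAbove k) - 1), ?_, he⟩
  rw [Finset.mem_product, Finset.Nat.mem_antidiagonalTuple]
  refine ⟨Finset.mem_univ _, ?_⟩
  have := sum_ins j (fun k => f (j.succAbove k) - 1)
  rw [he, hf] at this
  simp only
  omega

lemma bb_eq_zero (n s : ℕ) (hs : s < tri n) (h : ℝ) : bb n s h = 0 := by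
  rw [bb]
  refine Finset.sum_eq_zero fun f hf => ?_
  rw [Finset.Nat.mem_antidiagonalTuple] at hf
  by_contra hne
  have hm : md h f ≠ 0 := fun h0 => hne (by rw [h0]; ring)
  have := sum_inj_ge f (md_inj hm)
  omega

lemma bb_nonneg (n s : ℕ) (h : ℝ) : 0 ≤ bb n s h := Finset.sum_nonneg fun _ _ => sq_nonneg _

/-- normalised coefficients -/
noncomputable def aa (n p : ℕ) (h : ℝ) : ℝ := bb n (p + tri n) h / n.factorial

lemma aa_nonneg (n p : ℕ) (h : ℝ) : 0 ≤ aa n p h := div_nonneg (bb_nonneg _ _ _) (by positivity)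

lemma aa_succ_ge (n p : ℕ) (h : ℝ) : aa n p h ≤ aa (n + 1) p h := by
  have h1 := bb_succ_ge n (p + tri n) h
  rw [aa, aa, tri_succ, ← add_assoc, Nat.factorial_succ]
  rw [div_le_div_iff₀ (by positivity) (by positivity)]
  push_cast
  have : (0 : ℝ) < (n.factorial : ℝ) := by positivity
  nlinarith

lemma aa_succ_eq (n p : ℕ) (hp : p ≤ n) (h : ℝ) : aa (n + 1) p h = aa n p h := by
  have h1 := bb_succ_eq n p hp h
  rw [aa, aa, tri_succ, ← add_assoc, Nat.factorial_succ, ← h1]
  push_cast
  have : (0 : ℝ) < (n.factorial : ℝ) := by positivity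
  field_simp

lemma aa_mono (n m p : ℕ) (hnm : n ≤ m) (h : ℝ) : aa n p h ≤ aa m p h := by
  induction m, hnm using Nat.le_induction with
  | base => exact le_rfl
  | succ m hm ih => exact ih.trans (aa_succ_ge m p h)

lemma aa_stable (n p : ℕ) (hp : p ≤ n) (h : ℝ) : aa n p h = aa p p h := by
  induction n, hp using Nat.le_induction with
  | base => rfl
  | succ n hn ih => rw [aa_succ_eq n p hn, ih]

/-! ### polynomials in `h` -/

/-- `cc` as a polynomial -/
noncomputable def cP (k : ℕ) : Polynomial ℝ :=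
  ∏ i ∈ Finset.range k, (Polynomial.C (1 / ((i : ℝ) + 1)) * (Polynomial.C (i : ℝ) - Polynomial.X))

lemma cP_eval (h : ℝ) (k : ℕ) : (cP k).eval h = cc h k := by
  rw [cP, Polynomial.eval_prod, cc]
  refine Finset.prod_congr rfl fun i _ => ?_
  simp
  ring

/-- `aa` as a polynomial -/
noncomputable def aP (n p : ℕ) : Polynomial ℝ :=
  Polynomial.C (1 / (n.factorial : ℝ)) * ∑ f ∈ Finset.Nat.antidiagonalTuple n (p + tri n),
    (Matrix.of fun i j : Fin n => if (i : ℕ) ≤ f j then cP (f j - i) else 0).det ^ 2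

lemma aP_eval (n p : ℕ) (h : ℝ) : (aP n p).eval h = aa n p h := by
  rw [aP, Polynomial.eval_mul, Polynomial.eval_C, Polynomial.eval_finsetSum, aa, bb]
  rw [one_div, div_eq_inv_mul]
  congr 1
  refine Finset.sum_congr rfl fun f _ => ?_
  rw [Polynomial.eval_pow, md]
  congr 1
  have := RingHom.map_det (Polynomial.evalRingHom h)
    (Matrix.of fun i j : Fin n => if (i : ℕ) ≤ f j then cP (f j - i) else 0)
  rw [Polynomial.coe_evalRingHom] at this
  rw [this]
  congr 1
  ext i j
  simp only [RingHom.mapMatrix_apply, Matrix.map_apply, Matrix.of_apply, ccm,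
    Polynomial.coe_evalRingHom]
  split_ifs
  · rw [cP_eval]
  · simp

/-- `cc (-h²)` as a polynomial -/
noncomputable def dP (k : ℕ) : Polynomial ℝ :=
  ∏ i ∈ Finset.range k, (Polynomial.C (1 / ((i : ℝ) + 1)) *
    (Polynomial.C (i : ℝ) + Polynomial.X ^ 2))

lemma dP_eval (h : ℝ) (k : ℕ) : (dP k).eval h = cc (-(h ^ 2)) k := by
  rw [dP, Polynomial.eval_prod, cc]
  refine Finset.prod_congr rfl fun i _ => ?_
  simp
  ring

/-- if the limit coefficients agree at all large negative integers then they agree -/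
lemma aa_eq_of (H : ∀ n p : ℕ, p ≤ n → aa n p (-(n : ℝ)) = cc (-((n : ℝ) ^ 2)) p) (p : ℕ) (h : ℝ) :
    aa p p h = cc (-(h ^ 2)) p := by
  have h1 : aP p p = dP p := by
    refine Polynomial.eq_of_infinite_eval_eq _ _ ?_
    refine Set.Infinite.mono (s := Set.range fun k : ℕ => -((p + k : ℕ) : ℝ)) ?_ ?_
    · rintro _ ⟨k, rfl⟩
      simp only [Set.mem_ofPred_eq]
      rw [aP_eval, dP_eval, ← aa_stable (p + k) p (by omega), H _ _ (by omega)]
      congr 1
      ring
    · refine Set.infinite_range_of_injective fun a b hab => ?_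
      simpa using hab
  rw [← aP_eval, h1, dP_eval]

end Pool.Agent.helper10.SG
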