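import Mathlib
import Pool.Agent.helper84.SG.Defs2

/-!
# Definitions for module B of MP_55470d_pr

The definitions `cc`, `Nmat`, `Dtoep` are those of `Pool.Agent.helper84.SG.Defs2`.
-/
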