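import Pool.Agent.helper10.SG.Comb

/-!
# Expansion of the Toeplitz determinant
-/

set_option autoImplicit false
open Filter Topology

namespace Pool.Agent.helper10.SG
open Pool.Agent.helper84.SG

section CB
variable {ι μ : Type*} [Fintype ι] [DecidableEq ι]

lemma cb_aux (s : Finset μ) (A : ι → μ → ℝ) :
    (Matrix.of fun i j => ∑ k ∈ s, A i k * A j k).det =
      ∑ f ∈ Fintype.piFinset fun _ : ι => s,
        (∏ i, A i (f i)) * (Matrix.of fun i j => A i (f j)).det := by
  rw [Matrix.det_apply']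
  have h1 : ∀ σ : Equiv.Perm ι, ∏ i, (Matrix.of fun i j => ∑ k ∈ s, A i k * A j k) (σ i) i =
      ∑ f ∈ Fintype.piFinset fun _ : ι => s, ∏ i, (A (σ i) (f i) * A i (f i)) := by
    intro σ
    exact Finset.prod_univ_sum (fun _ : ι => s) (fun i m => A (σ i) m * A i m)
  simp_rw [h1, Finset.mul_sum]
  rw [Finset.sum_comm]
  refine Finset.sum_congr rfl fun f _ => ?_
  rw [Matrix.det_apply', Finset.mul_sum]
  refine Finset.sum_congr rfl fun σ _ => ?_
  rw [Finset.prod_mul_distrib]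
  simp only [Matrix.of_apply]
  ring

/-- Cauchy–Binet -/
lemma cauchy_binet (s : Finset μ) (A : ι → μ → ℝ) :
    ((Fintype.card ι).factorial : ℝ) * (Matrix.of fun i j => ∑ k ∈ s, A i k * A j k).det =
      ∑ f ∈ Fintype.piFinset fun _ : ι => s, (Matrix.of fun i j => A i (f j)).det ^ 2 := by
  have h2 : ∀ τ : Equiv.Perm ι, (Matrix.of fun i j => ∑ k ∈ s, A i k * A j k).det =
      ∑ f ∈ Fintype.piFinset fun _ : ι => s,
      (((Equiv.Perm.sign τ : ℤˣ) : ℤ) : ℝ) * (∏ i, A i (f (τ i))) *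
        (Matrix.of fun i j => A i (f j)).det := by
    intro τ
    rw [cb_aux]
    refine Finset.sum_nbij' (fun f => f ∘ τ.symm) (fun f => f ∘ τ) ?_ ?_ ?_ ?_ ?_
    · intro f hf
      rw [Fintype.mem_piFinset] at hf ⊢
      exact fun i => hf _
    · intro f hf
      rw [Fintype.mem_piFinset] at hf ⊢
      exact fun i => hf _
    · intro f _
      funext i
      simp
    · intro f _
      funext i
      simp
    · intro f _
      have e2 : (Matrix.of fun i j => A i (f j)) =
          (Matrix.of fun i j => A i ((f ∘ τ.symm) j)).submatrix id τ := by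
        ext i j
        simp
      rw [e2, Matrix.det_permute']
      simp only [Function.comp_apply, Equiv.symm_apply_apply]
      ring
  have h3 : ∑ τ : Equiv.Perm ι, (Matrix.of fun i j => ∑ k ∈ s, A i k * A j k).det =
      ((Fintype.card ι).factorial : ℝ) * (Matrix.of fun i j => ∑ k ∈ s, A i k * A j k).det := by
    rw [Finset.sum_const, Finset.card_univ, Fintype.card_perm, nsmul_eq_mul]
  rw [← h3, Finset.sum_congr rfl fun τ _ => h2 τ, Finset.sum_comm]
  refine Finset.sum_congr rfl fun f _ => ?_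
  rw [← Finset.sum_mul]
  have h4 : ∑ τ : Equiv.Perm ι, (((Equiv.Perm.sign τ : ℤˣ) : ℤ) : ℝ) *
      (∏ i, A i (f (τ i))) = (Matrix.of fun i j => A i (f j)).det := by
    rw [← Matrix.det_transpose, Matrix.det_apply']
    rfl
  rw [h4]
  ring

end CB

/-- entries of the infinite triangular Toeplitz matrix -/
noncomputable def T (h r : ℝ) (i k : ℕ) : ℝ := if i ≤ k then r ^ (k - i) * cc h (k - i) else 0

lemma summable_T (h r : ℝ) (hr : 0 ≤ r) (hr1 : r < 1) (i : ℕ) : Summable fun k => |T h r i k| := by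
  rw [← summable_nat_add_iff i]
  refine (summable_cc h r hr hr1).congr fun k => ?_
  rw [T, if_pos (Nat.le_add_left i k), Nat.add_sub_cancel, abs_mul, abs_of_nonneg (pow_nonneg hr k)]
  ring

lemma summable_TT (h r : ℝ) (hr : 0 ≤ r) (hr1 : r < 1) (i j : ℕ) :
    Summable fun k => T h r i k * T h r j k := by
  refine Summable.of_norm_bounded
    ((summable_T h r hr hr1 i).mul_right (∑' k, |T h r j k|)) fun k => ?_
  rw [norm_mul, Real.norm_eq_abs, Real.norm_eq_abs]
  refine mul_le_mul_of_nonneg_left ?_ (abs_nonneg _)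
  exact (summable_T h r hr hr1 j).le_tsum k fun _ _ => abs_nonneg _

lemma Dtoep_eq (n : ℕ) (h r : ℝ) :
    Dtoep n h r = (Matrix.of fun i j : Fin n => ∑' k, T h r i k * T h r j k).det := by
  rw [Dtoep]
  congr 1
  ext i j
  rw [Matrix.of_apply, Matrix.of_apply]
  refine tsum_congr fun k => ?_
  by_cases hi : (i : ℕ) ≤ k
  · by_cases hj : (j : ℕ) ≤ k
    · rw [if_pos ⟨hi, hj⟩, T, T, if_pos hi, if_pos hj, pow_add]
      ring
    · rw [if_neg (fun hc => hj hc.2), T, T, if_neg hj, mul_zero]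
  · rw [if_neg (fun hc => hi hc.1), T, if_neg hi, zero_mul]

lemma trunc_tendsto (n : ℕ) (h r : ℝ) (hr : 0 ≤ r) (hr1 : r < 1) :
    Tendsto (fun K : ℕ => (Matrix.of fun i j : Fin n =>
      ∑ k ∈ Finset.range K, T h r i k * T h r j k).det) atTop (𝓝 (Dtoep n h r)) := by
  rw [Dtoep_eq]
  have hc : Continuous fun A : Matrix (Fin n) (Fin n) ℝ => A.det :=
    Continuous.matrix_det continuous_id
  refine (hc.tendsto _).comp ?_
  refine tendsto_pi_nhds.mpr fun i => tendsto_pi_nhds.mpr fun j => ?_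
  exact (summable_TT h r hr hr1 i j).hasSum.tendsto_sum_nat

lemma det_T {n : ℕ} (h r : ℝ) (f : Fin n → ℕ) :
    r ^ tri n * (Matrix.of fun i j : Fin n => T h r i (f j)).det =
      r ^ (∑ i, f i) * md h f := by
  have h1 : (∏ i : Fin n, r ^ (i : ℕ)) = r ^ tri n := by
    rw [Finset.prod_pow_eq_pow_sum, tri, ← Fin.sum_univ_eq_sum_range (fun i => i)]
  have h2 : (∏ i : Fin n, r ^ (f i)) = r ^ (∑ i, f i) := Finset.prod_pow_eq_pow_sum _ _ _
  rw [← h1, ← h2, ← Matrix.det_mul_column, md, ← Matrix.det_mul_row]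
  congr 1
  ext i j
  simp only [Matrix.of_apply, T, ccm]
  split_ifs with hij
  · rw [← mul_assoc, ← pow_add, Nat.add_sub_cancel' hij]
  · simp

lemma trunc_eq (n : ℕ) (h r : ℝ) (K : ℕ) :
    (r ^ 2) ^ tri n * ((n.factorial : ℝ) * (Matrix.of fun i j : Fin n =>
      ∑ k ∈ Finset.range K, T h r i k * T h r j k).det) =
    ∑ f ∈ Fintype.piFinset fun _ : Fin n => Finset.range K,
      (r ^ 2) ^ (∑ i, f i) * md h f ^ 2 := by
  have h1 := cauchy_binet (ι := Fin n) (Finset.range K) (fun i k => T h r i k)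
  rw [Fintype.card_fin] at h1
  rw [h1, Finset.mul_sum]
  refine Finset.sum_congr rfl fun f _ => ?_
  have h2 := det_T h r f
  have h3 : (r ^ 2) ^ tri n = (r ^ tri n) ^ 2 := by rw [← pow_mul, ← pow_mul, mul_comm]
  have h4 : (r ^ 2) ^ (∑ i, f i) = (r ^ (∑ i, f i)) ^ 2 := by
    rw [← pow_mul, ← pow_mul, mul_comm]
  rw [h3, h4, ← mul_pow, ← mul_pow, h2]

lemma hasSum_fun (n : ℕ) (h r : ℝ) (hr : 0 ≤ r) (hr1 : r < 1) :
    HasSum (fun f : Fin n → ℕ => (r ^ 2) ^ (∑ i, f i) * md h f ^ 2)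
      ((r ^ 2) ^ tri n * ((n.factorial : ℝ) * Dtoep n h r)) := by
  set g : (Fin n → ℕ) → ℝ := fun f => (r ^ 2) ^ (∑ i, f i) * md h f ^ 2 with hg
  have hg0 : ∀ f, 0 ≤ g f := fun f => by positivity
  set B : ℕ → Finset (Fin n → ℕ) := fun K => Fintype.piFinset fun _ : Fin n => Finset.range K
    with hB
  have hmono : Monotone B := by
    intro a b hab f hf
    rw [hB, Fintype.mem_piFinset] at hf ⊢
    exact fun i => Finset.mem_range.mpr (lt_of_lt_of_le (Finset.mem_range.mp (hf i)) hab)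
  have hex : ∀ f : Fin n → ℕ, ∃ K, f ∈ B K := by
    intro f
    refine ⟨(∑ i, f i) + 1, ?_⟩
    rw [hB, Fintype.mem_piFinset]
    intro i
    rw [Finset.mem_range]
    have := Finset.single_le_sum (f := f) (fun i _ => Nat.zero_le _) (Finset.mem_univ i)
    omega
  have hlim : Tendsto (fun K => ∑ f ∈ B K, g f) atTop
      (𝓝 ((r ^ 2) ^ tri n * ((n.factorial : ℝ) * Dtoep n h r))) := by
    have h1 := ((trunc_tendsto n h r hr hr1).const_mul (n.factorial : ℝ)).const_mul
      ((r ^ 2) ^ tri n)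
    refine h1.congr fun K => ?_
    rw [trunc_eq]
  have hsm : Monotone fun K => ∑ f ∈ B K, g f := fun a b hab =>
    Finset.sum_le_sum_of_subset_of_nonneg (hmono hab) fun _ _ _ => hg0 _
  have hle : ∀ K, ∑ f ∈ B K, g f ≤ (r ^ 2) ^ tri n * ((n.factorial : ℝ) * Dtoep n h r) :=
    fun K => hsm.ge_of_tendsto hlim K
  have hBt : Tendsto B atTop atTop := tendsto_atTop_finset_of_monotone hmono hex
  have hsum : Summable g := by
    refine summable_of_sum_le hg0
      (c := (r ^ 2) ^ tri n * ((n.factorial : ℝ) * Dtoep n h r)) fun u => ?_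
    obtain ⟨K, hK⟩ := (hBt.eventually (eventually_ge_atTop u)).exists
    exact (Finset.sum_le_sum_of_subset_of_nonneg hK fun _ _ _ => hg0 _).trans (hle K)
  have h5 := hsum.hasSum.comp hBt
  have h6 : Tendsto (fun K => ∑ f ∈ B K, g f) atTop (𝓝 (∑' f, g f)) := h5
  rw [← tendsto_nhds_unique h6 hlim]
  exact hsum.hasSum

lemma hasSum_bb (n : ℕ) (h r : ℝ) (hr : 0 ≤ r) (hr1 : r < 1) :
    HasSum (fun s : ℕ => (r ^ 2) ^ s * bb n s h)
      ((r ^ 2) ^ tri n * ((n.factorial : ℝ) * Dtoep n h r)) := by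
  have h1 := hasSum_fun n h r hr hr1
  rw [← (Finset.Nat.sigmaAntidiagonalTupleEquivTuple n).hasSum_iff] at h1
  refine h1.sigma fun s => ?_
  rw [bb, Finset.mul_sum]
  have h2 : ∀ f ∈ Finset.Nat.antidiagonalTuple n s, (r ^ 2) ^ s * md h f ^ 2 =
      (r ^ 2) ^ (∑ i, f i) * md h f ^ 2 := by
    intro f hf
    rw [Finset.Nat.mem_antidiagonalTuple] at hf
    rw [hf]
  rw [Finset.sum_congr rfl h2, ← Finset.sum_coe_sort]
  exact hasSum_fintype _

/-- the power series expansion of the Toeplitz determinant -/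
lemma hasSum_aa (n : ℕ) (h r : ℝ) (hr : 0 < r) (hr1 : r < 1) :
    HasSum (fun p : ℕ => aa n p h * (r ^ 2) ^ p) (Dtoep n h r) := by
  have h1 := hasSum_bb n h r hr.le hr1
  have h2 : ∑ s ∈ Finset.range (tri n), (r ^ 2) ^ s * bb n s h = 0 :=
    Finset.sum_eq_zero fun s hs => by rw [bb_eq_zero n s (Finset.mem_range.mp hs), mul_zero]
  rw [← hasSum_nat_add_iff' (tri n), h2, sub_zero] at h1
  have hq : (0 : ℝ) < (r ^ 2) ^ tri n := by positivity
  have hf : (0 : ℝ) < (n.factorial : ℝ) := by positivity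
  have h3 := h1.mul_left ((((r ^ 2) ^ tri n) * (n.factorial : ℝ))⁻¹)
  have e : (((r ^ 2) ^ tri n) * (n.factorial : ℝ))⁻¹ *
      ((r ^ 2) ^ tri n * ((n.factorial : ℝ) * Dtoep n h r)) = Dtoep n h r := by
    field_simp
  rw [e] at h3
  convert! h3 using 1
  ext p
  rw [aa, pow_add]
  field_simp

end Pool.Agent.helper10.SG
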