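import Pool.Agent.helper10.SG.Circle

/-!
# Fourier coefficients of `(1 - r z)^a (1 - r/z)^b z^m`
-/

set_option autoImplicit false
open Filter Topology Complex MeasureTheory
open scoped Real

namespace Pool.Agent.helper10.SG
open Pool.Agent.helper84.SG

/-- `(1 - r z)^a (1 - r/z)^b z^m` -/
noncomputable def G (r a b : ℝ) (m : ℤ) (z : ℂ) : ℂ :=
  (1 - r * z) ^ (a : ℂ) * (1 - r * z⁻¹) ^ (b : ℂ) * z ^ m

variable {r : ℝ}

lemma Cc_G (hr : 0 ≤ r) (hr1 : r < 1) (a b : ℝ) (m : ℤ) : Cc (G r a b m) := by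
  unfold G
  refine Cc.mul ?_ (Cc_zpow m)
  unfold Cc
  have hinv : Continuous fun θ : ℝ => (circleMap 0 1 θ)⁻¹ :=
    (continuous_circleMap 0 1).inv₀ fun θ => circleMap_ne_center one_ne_zero
  refine Continuous.mul ?_ ?_
  · refine Continuous.cpow (by fun_prop) continuous_const fun θ => ?_
    exact one_sub_mem hr hr1 (norm_cm θ).le
  · refine Continuous.cpow (continuous_const.sub (continuous_const.mul hinv))
      continuous_const fun θ => ?_
    exact one_sub_mem hr hr1 (by rw [norm_inv, norm_cm, inv_one])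

/-- coefficient of the double series -/
noncomputable def cG (r a b : ℝ) (x : ℕ × ℕ) : ℂ :=
  ((cc a x.1 * r ^ x.1 : ℝ) : ℂ) * ((cc b x.2 * r ^ x.2 : ℝ) : ℂ)

lemma summable_cG (hr : 0 ≤ r) (hr1 : r < 1) (a b : ℝ) : Summable fun x => ‖cG r a b x‖ := by
  have h1 : ∀ a : ℝ, Summable fun k : ℕ => ‖((cc a k * r ^ k : ℝ) : ℂ)‖ := by
    intro a
    refine (summable_cc a r hr hr1).congr fun k => ?_
    rw [norm_real, Real.norm_eq_abs, abs_mul, abs_of_nonneg (pow_nonneg hr k)]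
  refine (Summable.mul_of_nonneg (h1 a) (h1 b) (fun _ => norm_nonneg _)
    (fun _ => norm_nonneg _)).congr fun x => ?_
  rw [cG, norm_mul]

lemma hasSum_G (hr : 0 ≤ r) (hr1 : r < 1) (a b : ℝ) (m : ℤ) (z : ℂ) (hz : ‖z‖ = 1) :
    HasSum (fun x : ℕ × ℕ => cG r a b x * z ^ ((x.1 : ℤ) - x.2 + m)) (G r a b m z) := by
  have hz0 : z ≠ 0 := by
    intro h
    rw [h, norm_zero] at hz
    norm_num at hz
  have hn : ∀ w : ℂ, ‖w‖ = 1 → ‖(r : ℂ) * w‖ < 1 := by
    intro w hw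
    rw [norm_mul, hw, norm_real, Real.norm_eq_abs, abs_of_nonneg hr, mul_one]
    exact hr1
  have h1 := hasSum_cc_complex a ((r : ℂ) * z) (hn z hz)
  have h2 := hasSum_cc_complex b ((r : ℂ) * z⁻¹) (hn _ (by rw [norm_inv, hz, inv_one]))
  have hs : Summable fun x : ℕ × ℕ => (cc a x.1 : ℂ) * ((r : ℂ) * z) ^ x.1 *
      ((cc b x.2 : ℂ) * ((r : ℂ) * z⁻¹) ^ x.2) := by
    refine Summable.of_norm ((summable_cG hr hr1 a b).congr fun x => ?_)
    rw [cG]
    simp only [norm_mul, norm_pow, norm_inv, hz, mul_one, inv_one, ofReal_mul, ofReal_pow]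
  have h3 := (h1.mul h2 hs).mul_right (z ^ m)
  unfold G
  convert! h3 using 1
  ext x
  rw [cG, zpow_add₀ hz0, zpow_sub₀ hz0, zpow_natCast, zpow_natCast, mul_pow, mul_pow, inv_pow]
  push_cast
  field_simp

lemma av_G (hr : 0 ≤ r) (hr1 : r < 1) (a b : ℝ) (i j : ℕ) :
    av (G r a b ((j : ℤ) - i)) = ((∑' k : ℕ, if i ≤ k ∧ j ≤ k then
      r ^ ((k - i) + (k - j)) * cc a (k - j) * cc b (k - i) else 0 : ℝ) : ℂ) := by
  have h1 : HasSum (fun x : ℕ × ℕ => cG r a b x *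
      (if (x.1 : ℤ) - x.2 + ((j : ℤ) - i) = 0 then 1 else 0)) (av (G r a b ((j : ℤ) - i))) := by
    have := av_hasSum (fun (x : ℕ × ℕ) (z : ℂ) => cG r a b x * z ^ ((x.1 : ℤ) - x.2 + ((j : ℤ) - i)))
      (G r a b ((j : ℤ) - i)) (fun x => ‖cG r a b x‖) (fun x => ?_) (fun x z hz => ?_)
      (summable_cG hr hr1 a b) (fun z hz => hasSum_G hr hr1 a b _ z hz)
    · convert! this using 1
      ext x
      rw [av_const_mul, av_zpow]
    · exact (Cc.of_cont continuous_const).mul (Cc_zpow _)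
    · rw [norm_mul, norm_zpow, hz, one_zpow, mul_one]
  have hinj : Function.Injective
      (fun k : {k : ℕ // i ≤ k ∧ j ≤ k} => ((k : ℕ) - j, (k : ℕ) - i)) := by
    rintro ⟨k, hk⟩ ⟨l, hl⟩ h
    simp only [Prod.mk.injEq] at h
    ext
    simp only
    omega
  rw [← hinj.hasSum_iff] at h1
  · have h2 : HasSum (fun k : ℕ => ((if i ≤ k ∧ j ≤ k then
        r ^ ((k - i) + (k - j)) * cc a (k - j) * cc b (k - i) else 0 : ℝ) : ℂ))
        (av (G r a b ((j : ℤ) - i))) := by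
      rw [← (Subtype.val_injective (p := fun k => i ≤ k ∧ j ≤ k)).hasSum_iff]
      · convert! h1 using 1
        ext ⟨k, hk⟩
        simp only [Function.comp_apply, cG]
        rw [if_pos hk, if_pos (by omega)]
        push_cast
        rw [pow_add]
        ring
      · intro k hk
        rw [if_neg (fun hc => hk ⟨⟨k, hc⟩, rfl⟩), ofReal_zero]
    rw [ofReal_tsum, h2.tsum_eq]
  · rintro ⟨p, q⟩ hx
    rw [if_neg, mul_zero]
    intro h0
    apply hx
    simp only at h0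
    refine ⟨⟨p + j, ?_, ?_⟩, ?_⟩
    · omega
    · omega
    · simp only [Prod.mk.injEq]
      omega

end Pool.Agent.helper10.SG
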